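import Mathlib

open MeasureTheory ProbabilityTheory

namespace TH967.DP

/-- upper increment -/
lemma log_inc_up {A B X U : ℝ} (hA : 0 ≤ A) (hB : 0 ≤ B) (hX : 0 < X) (hXU : X ≤ U)
    (hZ : 0 < A + B * X) :
    (1 - X / U) * (B * X / (A + B * X)) ≤ Real.log (A + B * U) - Real.log (A + B * X) := by
  have hU : 0 < U := lt_of_lt_of_le hX hXU
  have hZU : 0 < A + B * U := lt_of_lt_of_le hZ (by nlinarith)
  have h1 : Real.log (A + B * U) - Real.log (A + B * X) = Real.log ((A + B * U) / (A + B * X)) := by
    rw [Real.log_div hZU.ne' hZ.ne']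
  rw [h1]
  have h2 : 0 < (A + B * U) / (A + B * X) := by positivity
  refine le_trans ?_ (Real.one_sub_inv_le_log_of_pos h2)
  rw [inv_div]
  have h3 : (1 - X / U) * (B * X / (A + B * X)) = (U - X) * (B * X) / (U * (A + B * X)) := by
    field_simp
  have h4 : 1 - (A + B * X) / (A + B * U) = B * (U - X) / (A + B * U) := by
    field_simp
    ring
  rw [h3, h4, div_le_div_iff₀ (by positivity) hZU]
  have h5 : 0 ≤ B * (U - X) * (A * (U - X)) := by
    have : 0 ≤ U - X := by linarith
    positivity
  nlinarith

/-- lower increment -/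
lemma log_inc_down {A B V X : ℝ} (hA : 0 ≤ A) (hB : 0 ≤ B) (hV : 0 < V) (hVX : V ≤ X)
    (hZ : 0 < A + B * V) :
    (1 - V / X) * (B * X / (A + B * X)) ≤ Real.log (A + B * X) - Real.log (A + B * V) := by
  have hX : 0 < X := lt_of_lt_of_le hV hVX
  have hZX : 0 < A + B * X := lt_of_lt_of_le hZ (by nlinarith)
  have h1 : Real.log (A + B * X) - Real.log (A + B * V) = Real.log ((A + B * X) / (A + B * V)) := by
    rw [Real.log_div hZX.ne' hZ.ne']
  rw [h1]
  have h2 : 0 < (A + B * X) / (A + B * V) := by positivity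
  refine le_trans ?_ (Real.one_sub_inv_le_log_of_pos h2)
  rw [inv_div]
  apply le_of_eq
  have h3 : (1 - V / X) * (B * X / (A + B * X)) = B * (X - V) / (A + B * X) := by
    rw [one_sub_mul]
    have : V / X * (B * X / (A + B * X)) = B * V / (A + B * X) := by
      field_simp
    rw [this]
    ring
  have h4 : 1 - (A + B * V) / (A + B * X) = B * (X - V) / (A + B * X) := by
    rw [eq_div_iff hZX.ne', sub_mul, div_mul_cancel₀ _ hZX.ne']
    ring
  rw [h3, h4]

/-- the clip function -/
noncomputable def clip (y L : ℝ) (t : ℝ) : ℝ := min (max (t - (y - 1)) 0) (L + 2)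

lemma clip_mono (y L : ℝ) : Monotone (clip y L) := by
  intro s t h
  unfold clip
  exact min_le_min_right _ (max_le_max_right _ (by linarith))

lemma clip_nonneg {y L : ℝ} (hL : 0 ≤ L) (t : ℝ) : 0 ≤ clip y L t :=
  le_min (le_max_right _ _) (by linarith)

lemma clip_le (y L : ℝ) (t : ℝ) : clip y L t ≤ L + 2 := min_le_right _ _

lemma clip_up {y L t s : ℝ} (h1 : y ≤ t) (h2 : t ≤ y + L) (hs : t ≤ s) {r : ℝ} (hr : r ≤ 1)
    (hrs : r ≤ s - t) : r ≤ clip y L s - clip y L t := by
  have e1 : clip y L t = t - (y - 1) := by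
    unfold clip
    rw [max_eq_left (by linarith), min_eq_left (by linarith)]
  rw [e1]
  unfold clip
  rw [max_eq_left (by linarith)]
  rcases le_total (s - (y - 1)) (L + 2) with h | h
  · rw [min_eq_left h]; linarith
  · rw [min_eq_right h]; linarith

lemma clip_down {y L t s : ℝ} (h1 : y ≤ t) (h2 : t ≤ y + L) (hs : s ≤ t) {r : ℝ} (hr : r ≤ 1)
    (hrs : r ≤ t - s) : r ≤ clip y L t - clip y L s := by
  have e1 : clip y L t = t - (y - 1) := by
    unfold clip
    rw [max_eq_left (by linarith), min_eq_left (by linarith)]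
  rw [e1]
  unfold clip
  rcases le_total (s - (y - 1)) 0 with h | h
  · rw [max_eq_right h, min_eq_left (by linarith)]; linarith
  · rw [max_eq_left h, min_eq_left (by linarith)]; linarith

/-- key pointwise inequality -/
lemma key_ineq {A B V X U y L q : ℝ} (hA : 0 ≤ A) (hB : 0 ≤ B) (hV : 0 < V) (hVX : V ≤ X)
    (hXU : X ≤ U) (hZ : 0 < A + B * V) (hq : q ≤ 1 - V / U)
    (h1 : y ≤ Real.log (A + B * X)) (h2 : Real.log (A + B * X) ≤ y + L) :
    q * (B * X / (A + B * X)) ≤
      clip y L (Real.log (A + B * U)) - clip y L (Real.log (A + B * V)) := by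
  have hX : 0 < X := lt_of_lt_of_le hV hVX
  have hU : 0 < U := lt_of_lt_of_le hX hXU
  have hZX : 0 < A + B * X := lt_of_lt_of_le hZ (by nlinarith)
  set p := B * X / (A + B * X) with hp
  have hp0 : 0 ≤ p := by positivity
  have hp1 : p ≤ 1 := by
    rw [hp, div_le_one hZX]; linarith
  have hxu : X / U ≤ 1 := (div_le_one hU).2 hXU
  have hvx : V / X ≤ 1 := (div_le_one hX).2 hVX
  have hxu0 : 0 ≤ X / U := by positivity
  have hvx0 : 0 ≤ V / X := by positivity
  have i1 := log_inc_up hA hB hX hXU hZX
  have i2 := log_inc_down hA hB hV hVX hZ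
  rw [← hp] at i1 i2
  have j1 : (1 - X / U) * p ≤ clip y L (Real.log (A + B * U)) - clip y L (Real.log (A + B * X)) := by
    apply clip_up h1 h2 _ _ i1
    · have : 0 ≤ (1 - X / U) * p := mul_nonneg (by linarith) hp0
      linarith
    · nlinarith
  have j2 : (1 - V / X) * p ≤ clip y L (Real.log (A + B * X)) - clip y L (Real.log (A + B * V)) := by
    apply clip_down h1 h2 _ _ i2
    · have : 0 ≤ (1 - V / X) * p := mul_nonneg (by linarith) hp0
      linarith
    · nlinarith
  have e : V / U = (V / X) * (X / U) := by field_simp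
  have k : q ≤ (1 - X / U) + (1 - V / X) := by
    rw [e] at hq
    nlinarith [mul_nonneg (sub_nonneg.2 hxu) (sub_nonneg.2 hvx)]
  calc q * p ≤ ((1 - X / U) + (1 - V / X)) * p := mul_le_mul_of_nonneg_right k hp0
    _ = (1 - X / U) * p + (1 - V / X) * p := by ring
    _ ≤ _ := by linarith

/-- the score function -/
noncomputable def score (μ : Measure ℝ) (a b : ℝ) (x : ℝ) : ℝ :=
  (Set.Ici b).indicator (fun _ => (1 : ℝ)) x / μ.real (Set.Ici b)
    - (Set.Iic a).indicator (fun _ => (1 : ℝ)) x / μ.real (Set.Iic a)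

lemma measurable_score (μ : Measure ℝ) (a b : ℝ) : Measurable (score μ a b) := by
  unfold score
  exact ((measurable_const.indicator measurableSet_Ici).div_const _).sub
    ((measurable_const.indicator measurableSet_Iic).div_const _)

lemma integrable_bdd {α : Type*} [MeasurableSpace α] {μ : Measure α} [IsFiniteMeasure μ]
    {f : α → ℝ} (hf : Measurable f) {C : ℝ} (hC : ∀ x, |f x| ≤ C) : Integrable f μ :=
  Integrable.of_bound hf.aestronglyMeasurable C (Filter.Eventually.of_forall hC)

lemma abs_score_le (μ : Measure ℝ) (a b : ℝ) (x : ℝ) :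
    |score μ a b x| ≤ 1 / μ.real (Set.Ici b) + 1 / μ.real (Set.Iic a) := by
  unfold score
  have h1 : |(Set.Ici b).indicator (fun _ => (1 : ℝ)) x / μ.real (Set.Ici b)| ≤
      1 / μ.real (Set.Ici b) := by
    rw [abs_div, abs_of_nonneg (measureReal_nonneg (μ := μ) (s := Set.Ici b))]
    apply div_le_div_of_nonneg_right _ measureReal_nonneg
    by_cases h : x ∈ Set.Ici b
    · rw [Set.indicator_of_mem h]; simp
    · rw [Set.indicator_of_notMem h]; simp
  have h2 : |(Set.Iic a).indicator (fun _ => (1 : ℝ)) x / μ.real (Set.Iic a)| ≤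
      1 / μ.real (Set.Iic a) := by
    rw [abs_div, abs_of_nonneg (measureReal_nonneg (μ := μ) (s := Set.Iic a))]
    apply div_le_div_of_nonneg_right _ measureReal_nonneg
    by_cases h : x ∈ Set.Iic a
    · rw [Set.indicator_of_mem h]; simp
    · rw [Set.indicator_of_notMem h]; simp
  exact (abs_sub _ _).trans (add_le_add h1 h2)

lemma integral_ind {μ : Measure ℝ} [IsFiniteMeasure μ] {S : Set ℝ} (hS : MeasurableSet S) :
    ∫ x, S.indicator (fun _ => (1 : ℝ)) x ∂μ = μ.real S := by
  rw [integral_indicator hS]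
  simp

lemma integrable_ind {μ : Measure ℝ} [IsFiniteMeasure μ] {S : Set ℝ} (hS : MeasurableSet S) :
    Integrable (S.indicator (fun _ => (1 : ℝ))) μ :=
  (integrable_const (1 : ℝ)).indicator hS

/-- one-site comparison -/
lemma one_site (μ : Measure ℝ) [IsProbabilityMeasure μ] {a b : ℝ} (hab : a < b)
    (hp : 0 < μ.real (Set.Ici b)) (hm : 0 < μ.real (Set.Iic a)) {F h : ℝ → ℝ}
    (hF : Measurable F) {C : ℝ} (hFb : ∀ x, |F x| ≤ C) (hh : Measurable h)
    {C' : ℝ} (hhb : ∀ x, |h x| ≤ C')
    (key : ∀ v w u, v ≤ a → b ≤ u → v ≤ w → w ≤ u → h w ≤ F u - F v) :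
    ∫ x, h x ∂μ ≤ ∫ x, F x * score μ a b x ∂μ := by
  set pp := μ.real (Set.Ici b) with hpp
  set pm := μ.real (Set.Iic a) with hpm
  have iF : Integrable F μ := integrable_bdd hF hFb
  have ih : Integrable h μ := integrable_bdd hh hhb
  set Ap := (∫ x in Set.Ici b, F x ∂μ) / pp with hAp
  set Am := (∫ x in Set.Iic a, F x ∂μ) / pm with hAm
  have eAp : ∫ x in Set.Ici b, F x ∂μ = pp * Ap := by rw [hAp]; field_simp
  have eAm : ∫ x in Set.Iic a, F x ∂μ = pm * Am := by rw [hAm]; field_simp
  have I1 : ∀ x, (Set.Ici b).indicator (fun _ => (1 : ℝ)) x * F x = (Set.Ici b).indicator F x := by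
    intro x
    by_cases hx : x ∈ Set.Ici b
    · rw [Set.indicator_of_mem hx, Set.indicator_of_mem hx, one_mul]
    · rw [Set.indicator_of_notMem hx, Set.indicator_of_notMem hx, zero_mul]
  have I2 : ∀ x, (Set.Iic a).indicator (fun _ => (1 : ℝ)) x * F x = (Set.Iic a).indicator F x := by
    intro x
    by_cases hx : x ∈ Set.Iic a
    · rw [Set.indicator_of_mem hx, Set.indicator_of_mem hx, one_mul]
    · rw [Set.indicator_of_notMem hx, Set.indicator_of_notMem hx, zero_mul]
  have iI1 : Integrable ((Set.Ici b).indicator F) μ := iF.indicator measurableSet_Ici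
  have iI2 : Integrable ((Set.Iic a).indicator F) μ := iF.indicator measurableSet_Iic
  -- right side
  have R : ∫ x, F x * score μ a b x ∂μ = Ap - Am := by
    have e : ∀ x, F x * score μ a b x =
        (Set.Ici b).indicator F x / pp - (Set.Iic a).indicator F x / pm := by
      intro x
      rw [← I1, ← I2]
      unfold score
      ring
    simp_rw [e]
    rw [integral_sub (iI1.div_const _) (iI2.div_const _), integral_div, integral_div,
      integral_indicator measurableSet_Ici, integral_indicator measurableSet_Iic]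
  rw [R]
  -- averages
  have av1 : ∀ (c : ℝ) (w : ℝ), (∀ u, b ≤ u → c ≤ F u) → c ≤ Ap := by
    intro c _ hc
    rw [hAp, le_div_iff₀ hp]
    have : ∫ x in Set.Ici b, c ∂μ ≤ ∫ x in Set.Ici b, F x ∂μ := by
      apply setIntegral_mono_on (by simp) iF.integrableOn measurableSet_Ici
      intro x hx
      exact hc x hx
    simp only [setIntegral_const, smul_eq_mul] at this
    rw [← hpp] at this
    linarith
  have av2 : ∀ (c : ℝ), (∀ v, v ≤ a → F v ≤ c) → Am ≤ c := by
    intro c hc
    rw [hAm, div_le_iff₀ hm]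
    have : ∫ x in Set.Iic a, F x ∂μ ≤ ∫ x in Set.Iic a, c ∂μ := by
      apply setIntegral_mono_on iF.integrableOn (by simp) measurableSet_Iic
      intro x hx
      exact hc x hx
    simp only [setIntegral_const, smul_eq_mul] at this
    rw [← hpm] at this
    linarith
  -- pointwise bound
  have P : ∀ w, h w ≤ (Set.Ici b).indicator (fun _ => (1 : ℝ)) w * (F w - Ap)
      + (Set.Iic a).indicator (fun _ => (1 : ℝ)) w * (Am - F w) + (Ap - Am) := by
    intro w
    by_cases hb : b ≤ w
    · have n1 : w ∈ Set.Ici b := hb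
      have n2 : w ∉ Set.Iic a := by simp; linarith
      rw [Set.indicator_of_mem n1, Set.indicator_of_notMem n2]
      have : Am ≤ F w - h w := av2 _ (fun v hv => by
        have := key v w w hv hb (by linarith) le_rfl
        linarith)
      linarith
    · push Not at hb
      have n1 : w ∉ Set.Ici b := by simp [hb]
      by_cases ha : w ≤ a
      · have n2 : w ∈ Set.Iic a := ha
        rw [Set.indicator_of_notMem n1, Set.indicator_of_mem n2]
        have : h w + F w ≤ Ap := av1 _ w (fun u hu => by
          have := key w w u ha hu le_rfl (by linarith)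
          linarith)
        linarith
      · push Not at ha
        have n2 : w ∉ Set.Iic a := by simp [ha]
        rw [Set.indicator_of_notMem n1, Set.indicator_of_notMem n2]
        have : h w + Am ≤ Ap := av1 _ w (fun u hu => by
          have : Am ≤ F u - h w := av2 _ (fun v hv => by
            have := key v w u hv hu (by linarith) (by linarith)
            linarith)
          linarith)
        linarith
  -- integrate
  have iJ1 : Integrable (fun w => (Set.Ici b).indicator (fun _ => (1 : ℝ)) w * (F w - Ap)) μ := by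
    have : (fun w => (Set.Ici b).indicator (fun _ => (1 : ℝ)) w * (F w - Ap)) =
        fun w => (Set.Ici b).indicator F w - (Set.Ici b).indicator (fun _ => (1 : ℝ)) w * Ap := by
      ext w; rw [← I1]; ring
    rw [this]
    exact iI1.sub ((integrable_ind measurableSet_Ici).mul_const _)
  have iJ2 : Integrable (fun w => (Set.Iic a).indicator (fun _ => (1 : ℝ)) w * (Am - F w)) μ := by
    have : (fun w => (Set.Iic a).indicator (fun _ => (1 : ℝ)) w * (Am - F w)) =
        fun w => (Set.Iic a).indicator (fun _ => (1 : ℝ)) w * Am - (Set.Iic a).indicator F w := by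
      ext w; rw [← I2]; ring
    rw [this]
    exact ((integrable_ind measurableSet_Iic).mul_const _).sub iI2
  have E1 : ∫ w, (Set.Ici b).indicator (fun _ => (1 : ℝ)) w * (F w - Ap) ∂μ = 0 := by
    have : (fun w => (Set.Ici b).indicator (fun _ => (1 : ℝ)) w * (F w - Ap)) =
        fun w => (Set.Ici b).indicator F w - (Set.Ici b).indicator (fun _ => (1 : ℝ)) w * Ap := by
      ext w; rw [← I1]; ring
    rw [this, integral_sub iI1 ((integrable_ind measurableSet_Ici).mul_const _),
      integral_mul_const, integral_ind measurableSet_Ici, integral_indicator measurableSet_Ici, eAp]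
    ring
  have E2 : ∫ w, (Set.Iic a).indicator (fun _ => (1 : ℝ)) w * (Am - F w) ∂μ = 0 := by
    have : (fun w => (Set.Iic a).indicator (fun _ => (1 : ℝ)) w * (Am - F w)) =
        fun w => (Set.Iic a).indicator (fun _ => (1 : ℝ)) w * Am - (Set.Iic a).indicator F w := by
      ext w; rw [← I2]; ring
    rw [this, integral_sub ((integrable_ind measurableSet_Iic).mul_const _) iI2,
      integral_mul_const, integral_ind measurableSet_Iic, integral_indicator measurableSet_Iic, eAm]
    ring
  calc ∫ x, h x ∂μ ≤ ∫ w, ((Set.Ici b).indicator (fun _ => (1 : ℝ)) w * (F w - Ap)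
      + (Set.Iic a).indicator (fun _ => (1 : ℝ)) w * (Am - F w) + (Ap - Am)) ∂μ :=
        integral_mono ih ((iJ1.add iJ2).add (integrable_const _)) P
    _ = Ap - Am := by
        have e1 := integral_add (iJ1.add iJ2) (integrable_const (μ := μ) (Ap - Am))
        have e2 := integral_add iJ1 iJ2
        simp only [Pi.add_apply] at e1 e2
        rw [e1, e2, E1, E2]
        simp

lemma integral_score (μ : Measure ℝ) [IsProbabilityMeasure μ] {a b : ℝ}
    (hp : 0 < μ.real (Set.Ici b)) (hm : 0 < μ.real (Set.Iic a)) :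
    ∫ x, score μ a b x ∂μ = 0 := by
  unfold score
  rw [integral_sub ((integrable_ind measurableSet_Ici).div_const _)
    ((integrable_ind measurableSet_Iic).div_const _), integral_div, integral_div,
    integral_ind measurableSet_Ici, integral_ind measurableSet_Iic, div_self hp.ne',
    div_self hm.ne', sub_self]

lemma integral_score_sq (μ : Measure ℝ) [IsProbabilityMeasure μ] {a b : ℝ} (hab : a < b)
    (hp : 0 < μ.real (Set.Ici b)) (hm : 0 < μ.real (Set.Iic a)) :
    ∫ x, score μ a b x ^ 2 ∂μ = 1 / μ.real (Set.Ici b) + 1 / μ.real (Set.Iic a) := by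
  have e : ∀ x, score μ a b x ^ 2 =
      (Set.Ici b).indicator (fun _ => (1 : ℝ)) x / μ.real (Set.Ici b) ^ 2 +
      (Set.Iic a).indicator (fun _ => (1 : ℝ)) x / μ.real (Set.Iic a) ^ 2 := by
    intro x
    unfold score
    by_cases hb : x ∈ Set.Ici b
    · have ha : x ∉ Set.Iic a := by simp at hb ⊢; linarith
      rw [Set.indicator_of_mem hb, Set.indicator_of_notMem ha]
      ring
    · by_cases ha : x ∈ Set.Iic a
      · rw [Set.indicator_of_notMem hb, Set.indicator_of_mem ha]; ring
      · rw [Set.indicator_of_notMem hb, Set.indicator_of_notMem ha]; ring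
  simp_rw [e]
  rw [integral_add ((integrable_ind measurableSet_Ici).div_const _)
    ((integrable_ind measurableSet_Iic).div_const _), integral_div, integral_div,
    integral_ind measurableSet_Ici, integral_ind measurableSet_Iic]
  field_simp

end TH967.DP
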