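import Mathlib
import Pool.Agent.TH967.DP.AC2

open MeasureTheory ProbabilityTheory

namespace TH967.DP

/-- the event that coordinate `j` is the strict maximum -/
def isMax {M : ℕ} (j : Fin (M + 1)) : Set (Fin (M + 1) → ℝ) := {y | ∀ k, k ≠ j → y k < y j}

lemma measurableSet_isMax {M : ℕ} (j : Fin (M + 1)) : MeasurableSet (isMax j) := by
  have : isMax j = ⋂ k, {y : Fin (M + 1) → ℝ | k ≠ j → y k < y j} := by
    ext y; simp [isMax]
  rw [this]
  apply MeasurableSet.iInter
  intro k
  by_cases h : k = j
  · simp [h]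
  · have : {y : Fin (M + 1) → ℝ | k ≠ j → y k < y j} = {y | y k < y j} := by
      ext y; simp [h]
    rw [this]
    exact measurableSet_lt (measurable_pi_apply k) (measurable_pi_apply j)

lemma isMax_prob_eq {M : ℕ} (ρ : Measure ℝ) [IsProbabilityMeasure ρ] (j : Fin (M + 1)) :
    (Measure.pi fun _ : Fin (M + 1) => ρ) (isMax j) =
      (Measure.pi fun _ : Fin (M + 1) => ρ) (isMax 0) := by
  have h := measurePreserving_piCongrLeft (α := fun _ : Fin (M + 1) => ℝ)
    (μ := fun _ : Fin (M + 1) => ρ) (Equiv.swap 0 j)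
  rw [← h.measure_preimage (measurableSet_isMax 0).nullMeasurableSet]
  congr 1
  ext y
  have e : ∀ b, (MeasurableEquiv.piCongrLeft (fun _ : Fin (M + 1) => ℝ) (Equiv.swap 0 j)) y b =
      y (Equiv.swap 0 j b) := by
    intro b
    have := Equiv.piCongrLeft_apply_apply (P := fun _ : Fin (M + 1) => ℝ) (Equiv.swap 0 j) y
      (Equiv.swap 0 j b)
    rw [Equiv.swap_apply_self] at this
    exact this
  simp only [isMax, Set.mem_preimage, Set.mem_ofPred_eq, e, Equiv.swap_apply_left]
  constructor
  · intro hy k hk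
    apply hy
    intro h0
    apply hk
    have := congrArg (Equiv.swap 0 j) h0
    rw [Equiv.swap_apply_self, Equiv.swap_apply_right] at this
    exact this
  · intro hy k hk
    have := hy (Equiv.swap 0 j k) (by
      intro h0
      apply hk
      have := congrArg (Equiv.swap 0 j) h0
      rw [Equiv.swap_apply_self, Equiv.swap_apply_left] at this
      exact this)
    rwa [Equiv.swap_apply_self] at this

lemma isMax_zero_le {M : ℕ} (ρ : Measure ℝ) [IsProbabilityMeasure ρ] :
    (Measure.pi fun _ : Fin (M + 1) => ρ).real (isMax 0) ≤ 1 / (M + 1) := by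
  have hd : Pairwise (Function.onFun Disjoint (fun j : Fin (M + 1) => isMax j)) := by
    intro i j hij
    rw [Function.onFun, Set.disjoint_left]
    intro y h1 h2
    exact absurd (h1 j hij.symm) (not_lt.2 (h2 i hij).le)
  have h1 := measure_iUnion (μ := Measure.pi fun _ : Fin (M + 1) => ρ) hd
    (fun j => measurableSet_isMax j)
  rw [tsum_fintype] at h1
  simp_rw [isMax_prob_eq ρ] at h1
  rw [Finset.sum_const, Finset.card_univ, Fintype.card_fin] at h1
  have h2 : (M + 1) • (Measure.pi fun _ : Fin (M + 1) => ρ) (isMax 0) ≤ 1 := by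
    rw [← h1]; exact prob_le_one
  have h3 := ENNReal.toReal_mono (by simp) h2
  rw [nsmul_eq_mul, ENNReal.toReal_mul] at h3
  simp only [ENNReal.toReal_natCast, ENNReal.toReal_one] at h3
  rw [le_div_iff₀ (by positivity), mul_comm]
  push_cast at h3
  exact h3

lemma close_prob {M : ℕ} (ρ : Measure ℝ) [IsProbabilityMeasure ρ] {L κ : ℝ}
    (hκ : ∀ y, ρ.real (Set.Icc y (y + 2 * L)) ≤ κ) {j : Fin (M + 1)} (hj : j ≠ 0) :
    (Measure.pi fun _ : Fin (M + 1) => ρ).real {y | |y j - y 0| ≤ L} ≤ κ := by
  have hS : MeasurableSet {y : Fin (M + 1) → ℝ | |y j - y 0| ≤ L} := by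
    apply measurableSet_le _ measurable_const
    exact ((measurable_pi_apply j).sub (measurable_pi_apply 0)).abs
  have h1 : (Measure.pi fun _ : Fin (M + 1) => ρ).real {y | |y j - y 0| ≤ L} =
      ∫ y, {y : Fin (M + 1) → ℝ | |y j - y 0| ≤ L}.indicator (fun _ => (1 : ℝ)) y
        ∂(Measure.pi fun _ : Fin (M + 1) => ρ) := by
    rw [integral_indicator hS]; simp
  rw [h1, integral_resample ρ j (measurable_const.indicator hS) (C := 1) (by
    intro y
    by_cases h : y ∈ {y : Fin (M + 1) → ℝ | |y j - y 0| ≤ L}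
    · rw [Set.indicator_of_mem h]; simp
    · rw [Set.indicator_of_notMem h]; simp)]
  have h2 : ∀ y : Fin (M + 1) → ℝ, ∫ u, {y : Fin (M + 1) → ℝ | |y j - y 0| ≤ L}.indicator
      (fun _ => (1 : ℝ)) (Function.update y j u) ∂ρ ≤ κ := by
    intro y
    have e : ∀ u, {y : Fin (M + 1) → ℝ | |y j - y 0| ≤ L}.indicator
      (fun _ => (1 : ℝ)) (Function.update y j u) =
        (Set.Icc (y 0 - L) ((y 0 - L) + 2 * L)).indicator (fun _ => (1 : ℝ)) u := by
      intro u
      by_cases h : u ∈ Set.Icc (y 0 - L) ((y 0 - L) + 2 * L)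
      · rw [Set.indicator_of_mem h, Set.indicator_of_mem]
        simp only [Set.mem_ofPred_eq, Function.update_self, Function.update_of_ne (Ne.symm hj)]
        rw [abs_le]
        constructor <;> linarith [h.1, h.2]
      · rw [Set.indicator_of_notMem h, Set.indicator_of_notMem]
        simp only [Set.mem_ofPred_eq, Function.update_self, Function.update_of_ne (Ne.symm hj)]
        intro h'
        apply h
        rw [abs_le] at h'
        constructor <;> linarith [h'.1, h'.2]
    simp_rw [e]
    rw [integral_ind measurableSet_Icc]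
    exact hκ _
  calc ∫ y, (∫ u, {y : Fin (M + 1) → ℝ | |y j - y 0| ≤ L}.indicator
      (fun _ => (1 : ℝ)) (Function.update y j u) ∂ρ) ∂(Measure.pi fun _ : Fin (M + 1) => ρ)
      ≤ ∫ y, κ ∂(Measure.pi fun _ : Fin (M + 1) => ρ) := by
        apply integral_mono_of_nonneg
        · apply Filter.Eventually.of_forall
          intro y
          apply integral_nonneg
          intro u
          apply Set.indicator_nonneg
          intro _ _
          norm_num
        · exact integrable_const _
        · exact Filter.Eventually.of_forall h2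
    _ = κ := by simp

/-- an i.i.d. family: being within `L` of the maximum is unlikely -/
theorem iid_max {M : ℕ} (ρ : Measure ℝ) [IsProbabilityMeasure ρ] {L κ : ℝ}
    (hκ : ∀ y, ρ.real (Set.Icc y (y + 2 * L)) ≤ κ) :
    (Measure.pi fun _ : Fin (M + 1) => ρ).real {y | ∀ j, y j - L ≤ y 0} ≤ 1 / (M + 1) + M * κ := by
  have hsub : {y : Fin (M + 1) → ℝ | ∀ j, y j - L ≤ y 0} ⊆
      isMax 0 ∪ ⋃ j ∈ (Finset.univ.erase (0 : Fin (M + 1))), {y | |y j - y 0| ≤ L} := by
    intro y hy
    by_cases h : y ∈ isMax 0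
    · exact Or.inl h
    · right
      simp only [isMax, Set.mem_ofPred_eq, not_forall, not_lt] at h
      obtain ⟨k, hk, hk2⟩ := h
      simp only [Set.mem_iUnion]
      refine ⟨k, Finset.mem_erase.2 ⟨hk, Finset.mem_univ _⟩, ?_⟩
      simp only [Set.mem_ofPred_eq]
      have := hy k
      rw [abs_le]
      constructor
      · have h0 := hy 0
        linarith
      · linarith
  calc (Measure.pi fun _ : Fin (M + 1) => ρ).real {y | ∀ j, y j - L ≤ y 0}
      ≤ (Measure.pi fun _ : Fin (M + 1) => ρ).real
        (isMax 0 ∪ ⋃ j ∈ (Finset.univ.erase (0 : Fin (M + 1))), {y | |y j - y 0| ≤ L}) :=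
          measureReal_mono hsub
    _ ≤ (Measure.pi fun _ : Fin (M + 1) => ρ).real (isMax 0) +
        (Measure.pi fun _ : Fin (M + 1) => ρ).real
          (⋃ j ∈ (Finset.univ.erase (0 : Fin (M + 1))), {y | |y j - y 0| ≤ L}) :=
          measureReal_union_le _ _
    _ ≤ 1 / (M + 1) + ∑ j ∈ (Finset.univ.erase (0 : Fin (M + 1))),
        (Measure.pi fun _ : Fin (M + 1) => ρ).real {y | |y j - y 0| ≤ L} := by
          gcongr
          · exact isMax_zero_le ρ
          · exact measureReal_biUnion_finset_le _ _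
    _ ≤ 1 / (M + 1) + ∑ j ∈ (Finset.univ.erase (0 : Fin (M + 1))), κ := by
          gcongr with j hj
          exact close_prob ρ hκ (Finset.ne_of_mem_erase hj)
    _ = 1 / (M + 1) + M * κ := by
          rw [Finset.sum_const, Finset.card_erase_of_mem (Finset.mem_univ _), Finset.card_univ,
            Fintype.card_fin]
          simp

end TH967.DP
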