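import Mathlib

/-!
# Directed polymers in a random environment: definitions

`S` is simple random walk on `ℤ^d` started at `0`; its first `n` steps are a uniformly chosen
element of `Fin n → Step d`, where a step is a coordinate together with a sign.
-/

namespace TH967.DP

/-- A step of the nearest-neighbour walk on `ℤ^d`: a coordinate and a sign. -/
abbrev Step (d : ℕ) := Fin d × Bool

/-- The vector of a step: the unit vector of the coordinate, with the sign. -/
def stepVec {d : ℕ} (e : Step d) : Fin d → ℤ := Pi.single e.1 (if e.2 then 1 else -1)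

/-- The position `S_i` of the walk with steps `w`: the sum of its first `i` steps. -/
def pos {d n : ℕ} (w : Fin n → Step d) (i : ℕ) : Fin d → ℤ :=
  ∑ k : Fin n, if k.val < i then stepVec (w k) else 0

/-- `∑_{i=1}^n ω(i,S_i)` for the environment `η`. -/
def energy {d n : ℕ} (η : ℕ → (Fin d → ℤ) → ℝ) (w : Fin n → Step d) : ℝ :=
  ∑ i : Fin n, η (i.val + 1) (pos w (i.val + 1))

/-- `Z_n = E(exp(β ∑_{i≤n} ω(i,S_i)))`: the average over the `(2d)^n` walks of `n` steps. -/
noncomputable def partitionFn {d : ℕ} (β : ℝ) (η : ℕ → (Fin d → ℤ) → ℝ) (n : ℕ) : ℝ :=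
  (∑ w : Fin n → Step d, Real.exp (β * energy η w)) / (2 * (d : ℝ)) ^ n

/-- The polymer measure of a set `A` of walks of `n` steps:
`E(exp(β ∑_{i≤n} ω(i,S_i)); A) / Z_n`. -/
noncomputable def polymerProb {d : ℕ} (β : ℝ) (η : ℕ → (Fin d → ℤ) → ℝ) (n : ℕ)
    (A : Set (Fin n → Step d)) : ℝ :=
  ((∑ w : Fin n → Step d, A.indicator (fun w => Real.exp (β * energy η w)) w) /
    (2 * (d : ℝ)) ^ n) / partitionFn β η n

/-- The Euclidean norm of a lattice point. -/
noncomputable def euclid {d : ℕ} (x : Fin d → ℤ) : ℝ := Real.sqrt (∑ k, (x k : ℝ) ^ 2)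

/-- The event `max_{0≤i≤l} ‖S_i‖ ≤ r` for walks of `n ≥ l` steps. -/
def cyl (d n l : ℕ) (r : ℝ) : Set (Fin n → Step d) := {w | ∀ i ≤ l, euclid (pos w i) ≤ r}

open MeasureTheory Filter in
/-- The wandering exponent `ν = inf{a > 0 : 𝔼(liminf_n P_n(max_{0≤i≤n} ‖S_i‖ ≤ n^a)) = 1}` of the
environment `ω` (a family of random variables on the probability space `(Ω, P)`). -/
noncomputable def wanderingExp {d : ℕ} {Ω : Type} [MeasurableSpace Ω] (P : Measure Ω)
    (ω : ℕ → (Fin d → ℤ) → Ω → ℝ) (β : ℝ) : ℝ :=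
  sInf {a : ℝ | 0 < a ∧ ∫⁻ x, liminf (fun n : ℕ => ENNReal.ofReal (polymerProb β
    (fun i y => ω i y x) n (cyl d n n ((n : ℝ) ^ a)))) atTop ∂P = 1}

end TH967.DP
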