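import Mathlib
import Pool.Agent.TH967.DP.Defs

open Classical

namespace TH967.DP

variable {d : ℕ}

lemma pos_append_left {m T : ℕ} (u : Fin m → Step d) (v : Fin T → Step d) {i : ℕ} (hi : i ≤ m) :
    pos (Fin.append u v) i = pos u i := by
  unfold pos
  rw [Fin.sum_univ_add]
  have h2 : ∑ k : Fin T, (if (Fin.natAdd m k).val < i then
      stepVec (Fin.append u v (Fin.natAdd m k)) else 0) = 0 := by
    apply Finset.sum_eq_zero
    intro k _
    rw [if_neg]
    simp only [Fin.val_natAdd]
    omega
  rw [h2, add_zero]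
  apply Finset.sum_congr rfl
  intro k _
  simp

lemma pos_append_right {m T : ℕ} (u : Fin m → Step d) (v : Fin T → Step d) (i : ℕ) :
    pos (Fin.append u v) (m + i) = pos u m + pos v i := by
  unfold pos
  rw [Fin.sum_univ_add]
  congr 1
  · apply Finset.sum_congr rfl
    intro k _
    simp only [Fin.append_left, Fin.val_castAdd]
    rw [if_pos (by omega), if_pos (by omega)]
  · apply Finset.sum_congr rfl
    intro k _
    simp only [Fin.append_right, Fin.val_natAdd]
    by_cases h : k.val < i
    · rw [if_pos (by omega), if_pos h]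
    · rw [if_neg (by omega), if_neg h]

/-- sum of the absolute coordinates of a step -/
lemma l1_stepVec (e : Step d) : ∑ k, |stepVec e k| = 1 := by
  unfold stepVec
  have : ∀ k, |(Pi.single e.1 (if e.2 then (1:ℤ) else -1) : Fin d → ℤ) k| =
      if k = e.1 then 1 else 0 := by
    intro k
    by_cases h : k = e.1
    · subst h
      rw [Pi.single_eq_same, if_pos rfl]
      split_ifs <;> simp
    · rw [Pi.single_eq_of_ne h, if_neg h, abs_zero]
  simp_rw [this]
  simp

lemma l1_pos_le {n : ℕ} (w : Fin n → Step d) (i : ℕ) : ∑ k, |pos w i k| ≤ n := by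
  have h1 : ∀ k, |pos w i k| ≤ ∑ j : Fin n, |stepVec (w j) k| := by
    intro k
    unfold pos
    rw [Finset.sum_apply]
    refine (Finset.abs_sum_le_sum_abs _ _).trans ?_
    apply Finset.sum_le_sum
    intro j _
    split_ifs
    · exact le_rfl
    · simp
  calc ∑ k, |pos w i k| ≤ ∑ k, ∑ j : Fin n, |stepVec (w j) k| :=
        Finset.sum_le_sum (fun k _ => h1 k)
    _ = ∑ j : Fin n, ∑ k, |stepVec (w j) k| := Finset.sum_comm
    _ = n := by simp_rw [l1_stepVec]; simp

lemma abs_pos_le {n : ℕ} (w : Fin n → Step d) (i : ℕ) (k : Fin d) : |pos w i k| ≤ n :=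
  le_trans (Finset.single_le_sum (f := fun k => |pos w i k|) (fun _ _ => abs_nonneg _)
    (Finset.mem_univ k)) (l1_pos_le w i)

lemma euclid_pos_le {n : ℕ} (w : Fin n → Step d) (i : ℕ) : euclid (pos w i) ≤ n := by
  unfold euclid
  apply Real.sqrt_le_iff.2
  refine ⟨by positivity, ?_⟩
  have h := Finset.sum_sq_le_sq_sum_of_nonneg (s := Finset.univ)
    (f := fun k => |(pos w i k : ℝ)|) (fun _ _ => abs_nonneg _)
  simp only [sq_abs] at h
  refine h.trans ?_
  apply pow_le_pow_left₀ (Finset.sum_nonneg (fun _ _ => abs_nonneg _))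
  have := l1_pos_le w i
  have h2 : ((∑ k, |pos w i k| : ℤ) : ℝ) ≤ ((n : ℤ) : ℝ) := by exact_mod_cast this
  push_cast at h2
  exact h2

lemma abs_le_euclid (x : Fin d → ℤ) (k : Fin d) : |(x k : ℝ)| ≤ euclid x := by
  unfold euclid
  apply Real.le_sqrt_of_sq_le
  rw [sq_abs]
  exact Finset.single_le_sum (f := fun k => (x k : ℝ) ^ 2) (fun _ _ => sq_nonneg _)
    (Finset.mem_univ k)

/-- confinement in the sup-norm box of radius `D` -/
def Conf (D : ℕ) {n : ℕ} (w : Fin n → Step d) : Prop := ∀ i ≤ n, ∀ k, |pos w i k| ≤ (D : ℤ)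

/-- unnormalized confined partition function -/
noncomputable def ZC (β : ℝ) (η : ℕ → (Fin d → ℤ) → ℝ) (D n : ℕ) : ℝ :=
  ∑ w : Fin n → Step d, if Conf D w then Real.exp (β * energy η w) else 0

/-- unnormalized partition function -/
noncomputable def ZF (β : ℝ) (η : ℕ → (Fin d → ℤ) → ℝ) (n : ℕ) : ℝ :=
  ∑ w : Fin n → Step d, Real.exp (β * energy η w)

/-- shifted environment -/
def shift (T : ℕ) (z : Fin d → ℤ) (η : ℕ → (Fin d → ℤ) → ℝ) : ℕ → (Fin d → ℤ) → ℝ :=
  fun i x => η (T + i) (z + x)

lemma energy_append {m T : ℕ} (η : ℕ → (Fin d → ℤ) → ℝ) (u : Fin m → Step d)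
    (v : Fin T → Step d) :
    energy η (Fin.append u v) = energy η u + energy (shift m (pos u m) η) v := by
  unfold energy
  rw [Fin.sum_univ_add]
  congr 1
  · apply Finset.sum_congr rfl
    intro i _
    simp only [Fin.val_castAdd]
    rw [pos_append_left u v (by omega)]
  · apply Finset.sum_congr rfl
    intro i _
    simp only [Fin.val_natAdd, shift]
    rw [add_assoc, pos_append_right]

/-- the environment is bounded by `R` on the space-time box of size `n` -/
def Good (η : ℕ → (Fin d → ℤ) → ℝ) (n : ℕ) (R : ℝ) : Prop :=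
  ∀ i, 1 ≤ i → i ≤ n → ∀ x : Fin d → ℤ, (∀ k, |x k| ≤ (n : ℤ)) → |η i x| ≤ R

lemma energy_le_right {m T : ℕ} {η : ℕ → (Fin d → ℤ) → ℝ} {R : ℝ} (hG : Good η (m + T) R)
    (u : Fin m → Step d) (v : Fin T → Step d) :
    |energy (shift m (pos u m) η) v| ≤ T * R := by
  unfold energy
  refine (Finset.abs_sum_le_sum_abs _ _).trans ?_
  have : ∀ i : Fin T, |shift m (pos u m) η (i.val + 1) (pos v (i.val + 1))| ≤ R := by
    intro i
    unfold shift
    apply hG _ (by omega) (by have := i.isLt; omega)
    intro k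
    rw [← pos_append_right]
    have := abs_pos_le (Fin.append u v) (m + (i.val + 1)) k
    push_cast at this ⊢
    exact this
  refine (Finset.sum_le_sum (fun i _ => this i)).trans ?_
  rw [Finset.sum_const, Finset.card_univ, Fintype.card_fin, nsmul_eq_mul]

lemma energy_le_left {m T : ℕ} {η : ℕ → (Fin d → ℤ) → ℝ} {R : ℝ} (hG : Good η (T + m) R)
    (u : Fin T → Step d) : |energy η u| ≤ T * R := by
  unfold energy
  refine (Finset.abs_sum_le_sum_abs _ _).trans ?_
  have : ∀ i : Fin T, |η (i.val + 1) (pos u (i.val + 1))| ≤ R := by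
    intro i
    apply hG _ (by omega) (by have := i.isLt; omega)
    intro k
    have := abs_pos_le u (i.val + 1) k
    push_cast
    omega
  refine (Finset.sum_le_sum (fun i _ => this i)).trans ?_
  rw [Finset.sum_const, Finset.card_univ, Fintype.card_fin, nsmul_eq_mul]

lemma sum_append {m T : ℕ} (F : (Fin (m + T) → Step d) → ℝ) :
    ∑ w, F w = ∑ u : Fin m → Step d, ∑ v : Fin T → Step d, F (Fin.append u v) := by
  rw [← Fintype.sum_prod_type']
  exact (Equiv.sum_comp (Fin.appendEquiv m T) F).symm

/-- incumbent bound -/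
lemma ZC_le {m T D : ℕ} {η : ℕ → (Fin d → ℤ) → ℝ} {R β : ℝ} (hβ : 0 < β)
    (hG : Good η (m + T) R) :
    ZC β η D (m + T) ≤ ZC β η D m * ((2 * (d : ℝ)) ^ T * Real.exp (β * (T * R))) := by
  unfold ZC
  rw [sum_append, Finset.sum_mul]
  apply Finset.sum_le_sum
  intro u _
  by_cases hu : Conf D u
  · rw [if_pos hu]
    have h1 : ∀ v : Fin T → Step d, (if Conf D (Fin.append u v) then
        Real.exp (β * energy η (Fin.append u v)) else 0) ≤
        Real.exp (β * energy η u) * Real.exp (β * (T * R)) := by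
      intro v
      split_ifs
      · rw [energy_append, ← Real.exp_add, Real.exp_le_exp, mul_add]
        have := (abs_le.1 (energy_le_right hG u v)).2
        have := mul_le_mul_of_nonneg_left this hβ.le
        linarith
      · positivity
    refine (Finset.sum_le_sum (fun v _ => h1 v)).trans ?_
    rw [Finset.sum_const, Finset.card_univ, Fintype.card_fun, Fintype.card_prod, Fintype.card_fin,
      Fintype.card_bool, Fintype.card_fin, nsmul_eq_mul]
    push_cast
    apply le_of_eq
    ring
  · rw [if_neg hu, zero_mul]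
    apply le_of_eq
    apply Finset.sum_eq_zero
    intro v _
    rw [if_neg]
    intro h
    apply hu
    intro i hi k
    have := h i (by omega) k
    rwa [pos_append_left u v hi] at this

/-- competitor bound -/
lemma ZF_ge {m T D : ℕ} {η : ℕ → (Fin d → ℤ) → ℝ} {R β : ℝ} (hβ : 0 < β)
    (hG : Good η (T + m) R) (g : Fin T → Step d) {z : Fin d → ℤ} (hz : pos g T = z) :
    ZC β (shift T z η) D m * Real.exp (-(β * (T * R))) ≤ ZF β η (T + m) := by
  unfold ZF
  rw [sum_append]
  refine le_trans ?_ (Finset.single_le_sum (f := fun u => ∑ v : Fin m → Step d,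
    Real.exp (β * energy η (Fin.append u v)))
    (fun u _ => Finset.sum_nonneg (fun v _ => (Real.exp_pos _).le)) (Finset.mem_univ g))
  unfold ZC
  rw [Finset.sum_mul]
  apply Finset.sum_le_sum
  intro v _
  split_ifs
  · rw [energy_append, hz, ← Real.exp_add, Real.exp_le_exp, mul_add]
    have := (abs_le.1 (energy_le_left hG g)).1
    have := mul_le_mul_of_nonneg_left this hβ.le
    linarith
  · rw [zero_mul]; positivity

lemma pos_seq {n : ℕ} (σ : ℕ → Step d) {i : ℕ} (hi : i ≤ n) :
    pos (fun k : Fin n => σ k.val) i = ∑ k ∈ Finset.range i, stepVec (σ k) := by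
  unfold pos
  rw [Fin.sum_univ_eq_sum_range (fun k => if k < i then stepVec (σ k) else 0) n,
    ← Finset.sum_filter]
  congr 1
  ext k
  simp only [Finset.mem_filter, Finset.mem_range]
  omega

/-- a path that goes to a point of the first axis -/
def goPath (e : Fin d) (a : ℕ) (k : ℕ) : Step d := (e, decide (k < a))

lemma pos_goPath (e : Fin d) {a T : ℕ} (haT : a ≤ T) :
    pos (fun k : Fin T => goPath e a k.val) T = Pi.single e ((2 * a : ℤ) - T) := by
  rw [pos_seq _ le_rfl]
  have h1 : ∀ i, i ≤ a → ∑ k ∈ Finset.range i, stepVec (goPath e a k) = Pi.single e (i : ℤ) := by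
    intro i
    induction i with
    | zero => intro _; simp
    | succ i ih =>
      intro hi
      rw [Finset.sum_range_succ, ih (by omega)]
      unfold goPath stepVec
      simp only [decide_eq_true_eq]
      rw [if_pos (by omega), ← Pi.single_add]
      push_cast
      rfl
  have h2 : ∀ i, ∑ k ∈ Finset.range (a + i), stepVec (goPath e a k) =
      Pi.single e ((a : ℤ) - i) := by
    intro i
    induction i with
    | zero => rw [add_zero, h1 a le_rfl]; simp
    | succ i ih =>
      rw [← add_assoc, Finset.sum_range_succ, ih]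
      unfold goPath stepVec
      simp only [decide_eq_true_eq]
      rw [if_neg (by omega), ← Pi.single_add]
      congr 1
      push_cast
      ring
  obtain ⟨i, rfl⟩ := Nat.exists_eq_add_of_le haT
  rw [h2]
  congr 1
  push_cast
  ring

lemma exists_conf (hd : 0 < d) {D : ℕ} (hD : 1 ≤ D) (n : ℕ) : ∃ w : Fin n → Step d, Conf D w := by
  let e : Fin d := ⟨0, hd⟩
  let σ : ℕ → Step d := fun k => (e, decide (k % 2 = 0))
  refine ⟨fun k => σ k.val, ?_⟩
  have h : ∀ i, ∑ k ∈ Finset.range i, stepVec (σ k) = Pi.single e ((i % 2 : ℕ) : ℤ) := by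
    intro i
    induction i with
    | zero => simp
    | succ i ih =>
      rw [Finset.sum_range_succ, ih]
      unfold stepVec
      simp only [σ, decide_eq_true_eq]
      rw [← Pi.single_add]
      congr 1
      split_ifs with hh
      · omega
      · omega
  intro i hi k
  rw [pos_seq _ hi, h]
  by_cases hk : k = e
  · subst hk
    rw [Pi.single_eq_same]
    have : i % 2 < 2 := Nat.mod_lt _ (by norm_num)
    rw [abs_of_nonneg (by positivity)]
    omega
  · rw [Pi.single_eq_of_ne hk]
    simp

lemma ZC_pos (hd : 0 < d) {D : ℕ} (hD : 1 ≤ D) (β : ℝ) (η : ℕ → (Fin d → ℤ) → ℝ) (n : ℕ) :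
    0 < ZC β η D n := by
  obtain ⟨w, hw⟩ := exists_conf hd hD n
  unfold ZC
  apply Finset.sum_pos'
  · intro u _
    split_ifs
    · positivity
    · exact le_rfl
  · exact ⟨w, Finset.mem_univ _, by rw [if_pos hw]; positivity⟩

lemma ZF_pos (hd : 0 < d) (β : ℝ) (η : ℕ → (Fin d → ℤ) → ℝ) (n : ℕ) : 0 < ZF β η n := by
  unfold ZF
  obtain ⟨w, hw⟩ := exists_conf hd (le_refl 1) n
  have : Nonempty (Fin n → Step d) := ⟨w⟩
  exact Finset.sum_pos (fun _ _ => Real.exp_pos _) Finset.univ_nonempty

end TH967.DP
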