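import Mathlib
import Pool.Agent.TH967.DP.IID
import Pool.Agent.TH967.DP.Paths

open MeasureTheory ProbabilityTheory
open Classical

namespace TH967.DP

/-- the sup-norm box -/
abbrev Box (d D : ℕ) : Type :=
  {x : Fin d → ℤ // x ∈ Finset.Icc (fun _ : Fin d => -(D : ℤ)) (fun _ => (D : ℤ))}

/-- a space-time block -/
abbrev Blk (d D m : ℕ) : Type := Fin m × Box d D

lemma mem_box {d D : ℕ} {x : Fin d → ℤ} :
    x ∈ Finset.Icc (fun _ : Fin d => -(D : ℤ)) (fun _ => (D : ℤ)) ↔ ∀ k, |x k| ≤ (D : ℤ) := by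
  rw [Finset.mem_Icc, Pi.le_def, Pi.le_def, ← forall_and]
  apply forall_congr'
  intro k
  rw [abs_le]

lemma card_box (d D : ℕ) :
    (Finset.Icc (fun _ : Fin d => -(D : ℤ)) (fun _ => (D : ℤ))).card = (2 * D + 1) ^ d := by
  rw [Pi.card_Icc]
  simp only [Int.card_Icc, Finset.prod_const, Finset.card_univ, Fintype.card_fin]
  congr 1
  omega

lemma card_blk (d D m : ℕ) : Fintype.card (Blk d D m) = m * (2 * D + 1) ^ d := by
  rw [Fintype.card_prod, Fintype.card_fin, Fintype.card_coe, card_box]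

/-- confined paths -/
abbrev CP (d D m : ℕ) : Type := {w : Fin m → Step d // Conf D w}

/-- the block sites visited by a confined path -/
noncomputable def visC {d D m : ℕ} (w : CP d D m) : Finset (Blk d D m) :=
  Finset.univ.image (fun i : Fin m =>
    (i, (⟨pos w.1 (i.val + 1), mem_box.2 (fun k => w.2 _ (by have := i.isLt; omega) k)⟩ : Box d D)))

lemma visC_inj {d D m : ℕ} (w : CP d D m) : Function.Injective (fun i : Fin m =>
    (i, (⟨pos w.1 (i.val + 1), mem_box.2 (fun k => w.2 _ (by have := i.isLt; omega) k)⟩ :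
      Box d D))) := by
  intro i j h
  exact congrArg Prod.fst h

lemma card_visC {d D m : ℕ} (w : CP d D m) : (visC w).card = m := by
  unfold visC
  rw [Finset.card_image_of_injective _ (visC_inj w)]
  simp

lemma YY_visC {d D m : ℕ} (β : ℝ) (η : ℕ → (Fin d → ℤ) → ℝ) :
    YY β (visC (d := d) (D := D) (m := m)) (fun s => η (s.1.val + 1) s.2.1) =
      Real.log (ZC β η D m) := by
  unfold YY
  congr 1
  unfold ZZ ZC
  rw [← Finset.sum_filter, Finset.sum_subtype (p := fun w : Fin m → Step d => Conf D w) _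
    (by intro x; simp)]
  apply Finset.sum_congr rfl
  intro w _
  congr 2
  unfold visC
  rw [Finset.sum_image (fun i _ j _ h => visC_inj w h)]
  rfl

/-- start times of the blocks -/
def tj {M : ℕ} (T : ℕ) (j : Fin (M + 1)) : ℕ := if j = 0 then 0 else T

/-- embedding of the blocks -/
def emb {d M : ℕ} (hd : 0 < d) (D m T : ℕ) (p : Fin (M + 1) × Blk d D m) : ℕ × (Fin d → ℤ) :=
  (tj T p.1 + (p.2.1.val + 1), Pi.single ⟨0, hd⟩ ((4 * D * p.1.val : ℕ) : ℤ) + p.2.2.1)

lemma emb_inj {d M : ℕ} (hd : 0 < d) {D : ℕ} (hD : 1 ≤ D) (m T : ℕ) :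
    Function.Injective (emb (M := M) hd D m T) := by
  rintro ⟨j, i, x⟩ ⟨j', i', x'⟩ h
  unfold emb at h
  simp only [Prod.mk.injEq] at h
  obtain ⟨h1, h2⟩ := h
  have h3 := congrFun h2 ⟨0, hd⟩
  simp only [Pi.add_apply, Pi.single_eq_same] at h3
  have hx := abs_le.1 (mem_box.1 x.2 ⟨0, hd⟩)
  have hx' := abs_le.1 (mem_box.1 x'.2 ⟨0, hd⟩)
  have hDz : (1 : ℤ) ≤ D := by exact_mod_cast hD
  have hjj : j = j' := by
    rcases lt_trichotomy j j' with hlt | heq | hgt
    · exfalso
      have : (j.val : ℤ) + 1 ≤ j'.val := by exact_mod_cast hlt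
      push_cast at h3
      nlinarith [hx.1, hx.2, hx'.1, hx'.2]
    · exact heq
    · exfalso
      have : (j'.val : ℤ) + 1 ≤ j.val := by exact_mod_cast hgt
      push_cast at h3
      nlinarith [hx.1, hx.2, hx'.1, hx'.2]
  subst hjj
  have hi : i = i' := by
    apply Fin.ext
    omega
  subst hi
  have hxx : x = x' := Subtype.ext (add_left_cancel h2)
  subst hxx
  rfl

variable {Ω : Type*} [MeasurableSpace Ω] {P : Measure Ω} [IsProbabilityMeasure P] {d : ℕ}

/-- i.i.d. environments -/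
structure IsEnv (P : Measure Ω) (ω : ℕ → (Fin d → ℤ) → Ω → ℝ) : Prop where
  meas : ∀ i x, Measurable (ω i x)
  indep : iIndepFun (fun s : ℕ × (Fin d → ℤ) => ω s.1 s.2) P
  ident : ∀ i x, IdentDistrib (ω i x) (ω 1 0) P P

lemma law1 {ω : ℕ → (Fin d → ℤ) → Ω → ℝ} (h : IsEnv P ω) {κ : Type*} [Fintype κ]
    {φ : κ → ℕ × (Fin d → ℤ)} (hφ : Function.Injective φ) :
    P.map (fun a k => ω (φ k).1 (φ k).2 a) = Measure.pi (fun _ : κ => P.map (ω 1 0)) := by
  have h1 := h.indep.precomp hφ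
  rw [iIndepFun_iff_map_fun_eq_pi_map (fun i => (h.meas _ _).aemeasurable)] at h1
  have h2 : ∀ k, P.map (ω (φ k).1 (φ k).2) = P.map (ω 1 0) := fun k => (h.ident _ _).map_eq
  rw [h1]
  congr 1
  ext1 k
  exact h2 k

lemma law2 {ω : ℕ → (Fin d → ℤ) → Ω → ℝ} (h : IsEnv P ω) {κ : Type*} [Fintype κ] {M : ℕ}
    {φ : Fin (M + 1) × κ → ℕ × (Fin d → ℤ)} (hφ : Function.Injective φ) :
    P.map (fun a j k => ω (φ (j, k)).1 (φ (j, k)).2 a) =
      Measure.pi (fun _ : Fin (M + 1) => Measure.pi (fun _ : κ => P.map (ω 1 0))) := by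
  have hp : IsProbabilityMeasure (P.map (ω 1 0)) :=
    Measure.isProbabilityMeasure_map (h.meas 1 0).aemeasurable
  have h1 := law1 h hφ
  have h2 := Measure.infinitePi_map_curry (fun (_ : Fin (M + 1)) (_ : κ) => P.map (ω 1 0))
  simp_rw [Measure.infinitePi_eq_pi] at h2
  rw [← h2, ← h1, Measure.map_map (MeasurableEquiv.measurable _)]
  · rfl
  · rw [measurable_pi_iff]
    intro k
    exact h.meas _ _

/-- the law of the logarithm of a confined partition function -/
noncomputable def rho (β : ℝ) (d D m : ℕ) (μ : Measure ℝ) : Measure ℝ :=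
  (Measure.pi (fun _ : Blk d D m => μ)).map (YY β (visC (d := d) (D := D) (m := m)))

lemma law3 {ω : ℕ → (Fin d → ℤ) → Ω → ℝ} (h : IsEnv P ω) (hd : 0 < d) {D : ℕ} (hD : 1 ≤ D)
    (β : ℝ) (m T M : ℕ) :
    P.map (fun a (j : Fin (M + 1)) => Real.log (ZC β (shift (tj T j)
      (Pi.single ⟨0, hd⟩ ((4 * D * j.val : ℕ) : ℤ)) (fun i x => ω i x a)) D m)) =
      Measure.pi (fun _ : Fin (M + 1) => rho β d D m (P.map (ω 1 0))) := by
  have hp : IsProbabilityMeasure (P.map (ω 1 0)) :=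
    Measure.isProbabilityMeasure_map (h.meas 1 0).aemeasurable
  have h1 := law2 h (emb_inj (M := M) hd hD m T)
  have h2 := Measure.pi_map_pi (μ := fun _ : Fin (M + 1) =>
    Measure.pi (fun _ : Blk d D m => P.map (ω 1 0)))
    (f := fun _ => YY β (visC (d := d) (D := D) (m := m)))
    (fun _ => (measurable_YY β _).aemeasurable)
  have hm : Measurable (fun (a : Ω) (j : Fin (M + 1)) (k : Blk d D m) =>
      ω (emb hd D m T (j, k)).1 (emb hd D m T (j, k)).2 a) := by
    rw [measurable_pi_iff]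
    intro j
    rw [measurable_pi_iff]
    intro k
    exact h.meas _ _
  have hm2 : Measurable (fun (x : Fin (M + 1) → (Blk d D m → ℝ)) (i : Fin (M + 1)) =>
      YY β (visC (d := d) (D := D) (m := m)) (x i)) := by
    rw [measurable_pi_iff]
    intro i
    exact (measurable_YY β _).comp (measurable_pi_apply i)
  unfold rho
  rw [← h2, ← h1, Measure.map_map hm2 hm]
  congr 1
  ext a j
  rw [← YY_visC]
  rfl

end TH967.DP
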