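import Mathlib
import Pool.Agent.TH967.DP.Env

open MeasureTheory ProbabilityTheory
open Classical

namespace TH967.DP

variable {Ω : Type*} [MeasurableSpace Ω] {P : Measure Ω} [IsProbabilityMeasure P] {d : ℕ}

lemma shift_zero (η : ℕ → (Fin d → ℤ) → ℝ) : shift 0 0 η = η := by
  unfold shift
  ext i x
  simp

lemma rho_conc (hd : 0 < d) {β : ℝ} (hβ : 0 < β) {μ : Measure ℝ} [IsProbabilityMeasure μ]
    {a b : ℝ} (hab : a < b) (hp : 0 < μ.real (Set.Ici b)) (hm : 0 < μ.real (Set.Iic a))
    {D m : ℕ} (hD : 1 ≤ D) (hmpos : 1 ≤ m) {L : ℝ} (hL : 0 ≤ L) (y : ℝ) :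
    (rho β d D m μ).real (Set.Icc y (y + 2 * L)) ≤
      (2 * L + 2) * Real.sqrt ((2 * D + 1) ^ d *
        (1 / μ.real (Set.Ici b) + 1 / μ.real (Set.Iic a))) /
        ((1 - Real.exp (-(β * (b - a)))) * Real.sqrt m) := by
  obtain ⟨w, hw⟩ := exists_conf (d := d) hd hD m
  have hW : Nonempty (CP d D m) := ⟨⟨w, hw⟩⟩
  have hcardpos : 0 < Fintype.card (Blk d D m) := by
    rw [card_blk]; positivity
  have hB : Nonempty (Blk d D m) := Fintype.card_pos_iff.1 hcardpos
  have h := anti_conc (ι := Blk d D m) μ hab hp hm hβ (visC (d := d) (D := D) (m := m))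
    (fun w => card_visC w) (y := y) (L := 2 * L) (by linarith)
  unfold rho
  rw [map_measureReal_apply (measurable_YY β _) measurableSet_Icc]
  rw [card_blk] at h
  set K := 1 / μ.real (Set.Ici b) + 1 / μ.real (Set.Iic a) with hK
  set q := 1 - Real.exp (-(β * (b - a))) with hq
  have hqpos : 0 < q := by
    rw [hq]
    have : Real.exp (-(β * (b - a))) < 1 := by
      rw [← Real.exp_zero]
      apply Real.exp_lt_exp.2
      have := mul_pos hβ (sub_pos.2 hab)
      linarith
    linarith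
  have hmR : (0 : ℝ) < m := by exact_mod_cast hmpos
  have hsq : 0 < Real.sqrt m := Real.sqrt_pos.2 hmR
  have hsq2 : Real.sqrt m * Real.sqrt m = m := Real.mul_self_sqrt hmR.le
  have e : Real.sqrt (((m * (2 * D + 1) ^ d : ℕ) : ℝ) * K) =
      Real.sqrt m * Real.sqrt ((2 * D + 1) ^ d * K) := by
    push_cast
    rw [mul_assoc, Real.sqrt_mul hmR.le]
  rw [e] at h
  rw [le_div_iff₀ (by positivity)]
  set X := (Measure.pi fun _ : Blk d D m => μ).real
    (YY β (visC (d := d) (D := D) (m := m)) ⁻¹' Set.Icc y (y + 2 * L)) with hX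
  set S := Real.sqrt ((2 * D + 1) ^ d * K) with hS
  have h2 : Real.sqrt m * (X * (q * Real.sqrt m)) ≤ Real.sqrt m * ((2 * L + 2) * S) := by
    calc Real.sqrt m * (X * (q * Real.sqrt m)) = (Real.sqrt m * Real.sqrt m) * q * X := by ring
      _ = m * q * X := by rw [hsq2]
      _ ≤ (2 * L + 2) * (Real.sqrt m * S) := h
      _ = Real.sqrt m * ((2 * L + 2) * S) := by ring
  exact le_of_mul_le_mul_left h2 hsq

/-- the bad event of a large site value -/
lemma good_bound {ω : ℕ → (Fin d → ℤ) → Ω → ℝ} (h : IsEnv P ω)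
    (hexp : ∀ b : ℝ, Integrable (fun x => Real.exp (b * ω 1 0 x)) P) (n : ℕ) (R : ℝ) :
    P.real {x | ¬ Good (fun i y => ω i y x) n R} ≤
      n * (2 * n + 1) ^ d * ((∫ x, (Real.exp (ω 1 0 x) + Real.exp (-ω 1 0 x)) ∂P) *
        Real.exp (-R)) := by
  have hint : Integrable (fun x => Real.exp (ω 1 0 x) + Real.exp (-ω 1 0 x)) P := by
    have h1 := hexp 1
    have h2 := hexp (-1)
    simp only [one_mul, neg_mul] at h1 h2
    exact h1.add h2
  set K1 := ∫ x, (Real.exp (ω 1 0 x) + Real.exp (-ω 1 0 x)) ∂P with hK1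
  have h1 : P.real {x | R < |ω 1 0 x|} ≤ K1 * Real.exp (-R) := by
    have hM := mul_meas_ge_le_integral_of_nonneg (μ := P)
      (f := fun x => Real.exp (ω 1 0 x) + Real.exp (-ω 1 0 x))
      (Filter.Eventually.of_forall (fun x => by positivity)) hint (Real.exp R)
    have hsub : {x | R < |ω 1 0 x|} ⊆
        {x | Real.exp R ≤ Real.exp (ω 1 0 x) + Real.exp (-ω 1 0 x)} := by
      intro x hx
      simp only [Set.mem_ofPred_eq] at hx ⊢
      have h3 : Real.exp R ≤ Real.exp |ω 1 0 x| := Real.exp_le_exp.2 hx.le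
      rcases abs_cases (ω 1 0 x) with hc | hc
      · rw [hc.1] at h3
        have := Real.exp_pos (-ω 1 0 x)
        linarith
      · rw [hc.1] at h3
        have := Real.exp_pos (ω 1 0 x)
        linarith
    have h4 : P.real {x | R < |ω 1 0 x|} ≤
        P.real {x | Real.exp R ≤ Real.exp (ω 1 0 x) + Real.exp (-ω 1 0 x)} :=
      measureReal_mono hsub
    have h5 : Real.exp R * P.real {x | R < |ω 1 0 x|} ≤ K1 :=
      (mul_le_mul_of_nonneg_left h4 (Real.exp_pos R).le).trans hM
    rw [Real.exp_neg, ← div_eq_mul_inv, le_div_iff₀ (Real.exp_pos R)]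
    linarith
  have h2 : ∀ i x, P.real {y | R < |ω i x y|} ≤ K1 * Real.exp (-R) := by
    intro i x
    have hS : MeasurableSet {t : ℝ | R < |t|} := measurableSet_lt measurable_const measurable_id.abs
    have e1 : P.real {y | R < |ω i x y|} = (P.map (ω i x)).real {t : ℝ | R < |t|} := by
      rw [map_measureReal_apply (h.meas i x) hS]; rfl
    have e2 : P.real {y | R < |ω 1 0 y|} = (P.map (ω 1 0)).real {t : ℝ | R < |t|} := by
      rw [map_measureReal_apply (h.meas 1 0) hS]; rfl
    rw [e1, (h.ident i x).map_eq, ← e2]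
    exact h1
  have hsub : {x | ¬ Good (fun i y => ω i y x) n R} ⊆
      ⋃ s ∈ Finset.Icc 1 n ×ˢ Finset.Icc (fun _ : Fin d => -(n : ℤ)) (fun _ => (n : ℤ)),
        {y | R < |ω s.1 s.2 y|} := by
    intro y hy
    simp only [Set.mem_ofPred_eq, Good, not_forall, not_le] at hy
    obtain ⟨i, hi1, hi2, x, hx, hR⟩ := hy
    simp only [Set.mem_iUnion]
    exact ⟨(i, x), Finset.mem_product.2 ⟨Finset.mem_Icc.2 ⟨hi1, hi2⟩, mem_box.2 hx⟩, hR⟩
  calc P.real {x | ¬ Good (fun i y => ω i y x) n R}
      ≤ P.real (⋃ s ∈ Finset.Icc 1 n ×ˢ Finset.Icc (fun _ : Fin d => -(n : ℤ)) (fun _ => (n : ℤ)),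
        {y | R < |ω s.1 s.2 y|}) := measureReal_mono hsub (measure_ne_top _ _)
    _ ≤ ∑ s ∈ Finset.Icc 1 n ×ˢ Finset.Icc (fun _ : Fin d => -(n : ℤ)) (fun _ => (n : ℤ)),
        P.real {y | R < |ω s.1 s.2 y|} := measureReal_biUnion_finset_le _ _
    _ ≤ ∑ s ∈ Finset.Icc 1 n ×ˢ Finset.Icc (fun _ : Fin d => -(n : ℤ)) (fun _ => (n : ℤ)),
        K1 * Real.exp (-R) := Finset.sum_le_sum (fun s _ => h2 _ _)
    _ = n * (2 * n + 1) ^ d * (K1 * Real.exp (-R)) := by
        rw [Finset.sum_const, Finset.card_product, card_box, Nat.card_Icc, nsmul_eq_mul]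
        push_cast
        simp

/-- non-constancy gives a gap -/
lemma exists_gap {X : Ω → ℝ} (hX : Measurable X) (hexp : ∀ b : ℝ, Integrable (fun x => Real.exp (b * X x)) P)
    (hnc : ¬ ∃ c : ℝ, ∀ᵐ x ∂P, X x = c) :
    ∃ a b : ℝ, a < b ∧ 0 < (P.map X).real (Set.Ici b) ∧ 0 < (P.map X).real (Set.Iic a) := by
  have hint : Integrable X P := by
    have h1 := hexp 1
    have h2 := hexp (-1)
    simp only [one_mul, neg_mul] at h1 h2
    refine (h1.add h2).mono' hX.aestronglyMeasurable (Filter.Eventually.of_forall (fun x => ?_))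
    simp only [Pi.add_apply, Real.norm_eq_abs]
    have e1 := Real.add_one_le_exp (X x)
    have e2 := Real.add_one_le_exp (-X x)
    have e3 := Real.exp_pos (X x)
    have e4 := Real.exp_pos (-X x)
    rw [abs_le]
    constructor <;> linarith
  set c := ∫ x, X x ∂P with hc
  have hlow : ∃ a, a < c ∧ 0 < P.real {x | X x ≤ a} := by
    by_contra hcon
    push Not at hcon
    have hz : ∀ k : ℕ, P {x | X x ≤ c - 1 / ((k : ℝ) + 1)} = 0 := by
      intro k
      have := hcon (c - 1 / ((k : ℝ) + 1)) (by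
        have : (0 : ℝ) < 1 / ((k : ℝ) + 1) := by positivity
        linarith)
      have h0 : P.real {x | X x ≤ c - 1 / ((k : ℝ) + 1)} = 0 :=
        le_antisymm this measureReal_nonneg
      rwa [measureReal_eq_zero_iff] at h0
    have hge : ∀ᵐ x ∂P, c ≤ X x := by
      have : ∀ᵐ x ∂P, ∀ k : ℕ, ¬ (X x ≤ c - 1 / ((k : ℝ) + 1)) := by
        rw [ae_all_iff]
        intro k
        rw [ae_iff]
        simpa using hz k
      filter_upwards [this] with x hx
      by_contra hlt
      push Not at hlt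
      obtain ⟨k, hk⟩ := exists_nat_one_div_lt (sub_pos.2 hlt)
      apply hx k
      linarith
    have h0 : ∫ x, (X x - c) ∂P = 0 := by
      rw [integral_sub hint (integrable_const _)]
      simp [hc]
    have h1 := (integral_eq_zero_iff_of_nonneg_ae (μ := P) (f := fun x => X x - c) (by
      filter_upwards [hge] with x hx
      simp only [Pi.zero_apply]
      linarith) (hint.sub (integrable_const _))).1 h0
    apply hnc
    refine ⟨c, ?_⟩
    filter_upwards [h1] with x hx
    simp only [Pi.zero_apply] at hx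
    linarith
  have hhigh : ∃ b, c < b ∧ 0 < P.real {x | b ≤ X x} := by
    by_contra hcon
    push Not at hcon
    have hz : ∀ k : ℕ, P {x | c + 1 / ((k : ℝ) + 1) ≤ X x} = 0 := by
      intro k
      have := hcon (c + 1 / ((k : ℝ) + 1)) (by
        have : (0 : ℝ) < 1 / ((k : ℝ) + 1) := by positivity
        linarith)
      have h0 : P.real {x | c + 1 / ((k : ℝ) + 1) ≤ X x} = 0 :=
        le_antisymm this measureReal_nonneg
      rwa [measureReal_eq_zero_iff] at h0
    have hge : ∀ᵐ x ∂P, X x ≤ c := by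
      have : ∀ᵐ x ∂P, ∀ k : ℕ, ¬ (c + 1 / ((k : ℝ) + 1) ≤ X x) := by
        rw [ae_all_iff]
        intro k
        rw [ae_iff]
        simpa using hz k
      filter_upwards [this] with x hx
      by_contra hlt
      push Not at hlt
      obtain ⟨k, hk⟩ := exists_nat_one_div_lt (sub_pos.2 hlt)
      apply hx k
      linarith
    have h0 : ∫ x, (c - X x) ∂P = 0 := by
      rw [integral_sub (integrable_const _) hint]
      simp [hc]
    have h1 := (integral_eq_zero_iff_of_nonneg_ae (μ := P) (f := fun x => c - X x) (by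
      filter_upwards [hge] with x hx
      simp only [Pi.zero_apply]
      linarith) ((integrable_const _).sub hint)).1 h0
    apply hnc
    refine ⟨c, ?_⟩
    filter_upwards [h1] with x hx
    simp only [Pi.zero_apply] at hx
    linarith
  obtain ⟨a, ha, ha2⟩ := hlow
  obtain ⟨b, hb, hb2⟩ := hhigh
  refine ⟨a, b, ha.trans hb, ?_, ?_⟩
  · rw [map_measureReal_apply hX measurableSet_Ici]
    exact hb2
  · rw [map_measureReal_apply hX measurableSet_Iic]
    exact ha2

end TH967.DP
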