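import Mathlib
import Pool.Agent.TH967.DP.Paths

open Classical

namespace TH967.DP

variable {d : ℕ}

/-- parity of a lattice point -/
def par (x : Fin d → ℤ) : ZMod 2 := ∑ k, ((x k : ℤ) : ZMod 2)

lemma par_add (x y : Fin d → ℤ) : par (x + y) = par x + par y := by
  unfold par
  rw [← Finset.sum_add_distrib]
  apply Finset.sum_congr rfl
  intro k _
  simp

lemma par_sub (x y : Fin d → ℤ) : par (x - y) = par x - par y := by
  unfold par
  rw [← Finset.sum_sub_distrib]
  apply Finset.sum_congr rfl
  intro k _
  simp

lemma par_zero : par (0 : Fin d → ℤ) = 0 := by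
  unfold par
  simp

lemma par_stepVec (e : Step d) : par (stepVec e) = 1 := by
  unfold par stepVec
  rw [Finset.sum_eq_single e.1]
  · rw [Pi.single_eq_same]
    split_ifs
    · simp
    · decide
  · intro k _ hk
    rw [Pi.single_eq_of_ne hk]
    simp
  · intro h
    exact absurd (Finset.mem_univ _) h

lemma pos_succ_last {n : ℕ} (w : Fin n → Step d) (e : Step d) :
    pos (Fin.append w (fun _ : Fin 1 => e)) (n + 1) = pos w n + stepVec e := by
  rw [pos_append_right]
  congr 1
  unfold pos
  simp

lemma par_pos {n : ℕ} (w : Fin n → Step d) {i : ℕ} (hi : i ≤ n) : par (pos w i) = (i : ZMod 2) := by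
  have h1 : par (pos w i) = ∑ j : Fin n, (if j.val < i then (1 : ZMod 2) else 0) := by
    unfold par pos
    simp only [Finset.sum_apply]
    push_cast
    rw [Finset.sum_comm]
    apply Finset.sum_congr rfl
    intro j _
    split_ifs with h
    · exact par_stepVec (w j)
    · simp
  rw [h1, Fin.sum_univ_eq_sum_range (fun j => if j < i then (1 : ZMod 2) else 0) n,
    ← Finset.sum_filter]
  have : (Finset.range n).filter (fun j => j < i) = Finset.range i := by
    ext j
    simp only [Finset.mem_filter, Finset.mem_range]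
    omega
  rw [this]
  simp

lemma exists_walk (hd : 0 < d) : ∀ (N : ℕ) (z : Fin d → ℤ), ∑ k, |z k| ≤ (N : ℤ) →
    par z = (N : ZMod 2) → ∃ w : Fin N → Step d, pos w N = z := by
  intro N
  induction N with
  | zero =>
    intro z hz _
    refine ⟨Fin.elim0, ?_⟩
    have h0 : ∀ k, z k = 0 := by
      intro k
      have h1 := Finset.single_le_sum (f := fun k => |z k|) (s := Finset.univ)
        (fun _ _ => abs_nonneg _) (Finset.mem_univ k)
      have h2 : |z k| ≤ 0 := by
        refine le_trans h1 ?_
        simpa using hz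
      exact abs_nonpos_iff.1 h2
    ext k
    rw [h0 k]
    unfold pos
    simp
  | succ N ih =>
    intro z hz hpar
    by_cases hz0 : ∃ k, z k ≠ 0
    · obtain ⟨k, hk⟩ := hz0
      let e : Step d := (k, decide (0 < z k))
      have hek : ∀ l, stepVec e l = if l = k then (if 0 < z k then 1 else -1) else 0 := by
        intro l
        unfold stepVec
        by_cases hl : l = k
        · subst hl
          simp [e]
        · rw [if_neg hl]
          exact Pi.single_eq_of_ne hl _
      have habs : ∀ l, |(z - stepVec e) l| = |z l| - (if l = k then 1 else 0) := by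
        intro l
        rw [Pi.sub_apply, hek]
        by_cases hl : l = k
        · subst hl
          rw [if_pos rfl, if_pos rfl]
          split_ifs with hpos
          · rw [abs_of_pos hpos, abs_of_nonneg (by omega)]
          · have : z l < 0 := lt_of_le_of_ne (not_lt.1 hpos) hk
            rw [abs_of_neg this, abs_of_nonpos (by omega)]
            ring
        · rw [if_neg hl, if_neg hl]
          simp
      have hsum : ∑ l, |(z - stepVec e) l| ≤ (N : ℤ) := by
        simp_rw [habs]
        rw [Finset.sum_sub_distrib]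
        simp only [Finset.sum_ite_eq', Finset.mem_univ, if_true]
        push_cast at hz
        linarith
      have hp : par (z - stepVec e) = (N : ZMod 2) := by
        rw [par_sub, par_stepVec, hpar]
        push_cast
        ring
      obtain ⟨w, hw⟩ := ih _ hsum hp
      refine ⟨Fin.append w (fun _ : Fin 1 => e), ?_⟩
      rw [pos_succ_last, hw]
      simp
    · push Not at hz0
      have hz00 : z = 0 := by
        ext k; exact hz0 k
      subst hz00
      have hN : 1 ≤ N := by
        rcases Nat.eq_zero_or_pos N with h | h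
        · subst h
          rw [par_zero] at hpar
          exact absurd hpar (by decide)
        · exact h
      let e : Step d := (⟨0, hd⟩, true)
      have hsum : ∑ l, |((0 : Fin d → ℤ) - stepVec e) l| ≤ (N : ℤ) := by
        have : ∀ l, |((0 : Fin d → ℤ) - stepVec e) l| = |stepVec e l| := by
          intro l
          rw [Pi.sub_apply]
          simp
        simp_rw [this]
        rw [l1_stepVec]
        exact_mod_cast hN
      have hp : par ((0 : Fin d → ℤ) - stepVec e) = (N : ZMod 2) := by
        rw [par_sub, par_stepVec, hpar]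
        push_cast
        ring
      obtain ⟨w, hw⟩ := ih _ hsum hp
      refine ⟨Fin.append w (fun _ : Fin 1 => e), ?_⟩
      rw [pos_succ_last, hw]
      simp

/-- partition function with given endpoint -/
noncomputable def ZY (β : ℝ) (η : ℕ → (Fin d → ℤ) → ℝ) (N : ℕ) (y : Fin d → ℤ) : ℝ :=
  ∑ u : Fin N → Step d, if pos u N = y then Real.exp (β * energy η u) else 0

/-- lower bound for the partition function with given endpoint -/
lemma ZY_ge {m T T' D : ℕ} {η : ℕ → (Fin d → ℤ) → ℝ} {R β : ℝ} (hβ : 0 < β)
    (hG : Good η (T + m + T') R) (g : Fin T → Step d) {z y : Fin d → ℤ} (hz : pos g T = z)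
    (hc : ∀ v : Fin m → Step d, Conf D v → ∃ c : Fin T' → Step d, pos c T' = y - (z + pos v m)) :
    ZC β (shift T z η) D m * Real.exp (-(β * ((T + T' : ℕ) * R))) ≤ ZY β η (T + m + T') y := by
  unfold ZY
  rw [sum_append, sum_append]
  have hnn : ∀ (a : Fin T → Step d) (v : Fin m → Step d) (c : Fin T' → Step d),
      0 ≤ (if pos (Fin.append (Fin.append a v) c) (T + m + T') = y then
        Real.exp (β * energy η (Fin.append (Fin.append a v) c)) else 0) := by
    intro a v c
    split_ifs
    · positivity
    · exact le_rfl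
  refine le_trans ?_ (Finset.single_le_sum (f := fun a => ∑ v : Fin m → Step d,
    ∑ c : Fin T' → Step d, (if pos (Fin.append (Fin.append a v) c) (T + m + T') = y then
        Real.exp (β * energy η (Fin.append (Fin.append a v) c)) else 0))
    (fun a _ => Finset.sum_nonneg (fun v _ => Finset.sum_nonneg (fun c _ => hnn a v c)))
    (Finset.mem_univ g))
  unfold ZC
  rw [Finset.sum_mul]
  apply Finset.sum_le_sum
  intro v _
  by_cases hv : Conf D v
  · rw [if_pos hv]
    obtain ⟨c, hcc⟩ := hc v hv
    refine le_trans ?_ (Finset.single_le_sum (f := fun c : Fin T' → Step d =>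
      (if pos (Fin.append (Fin.append g v) c) (T + m + T') = y then
        Real.exp (β * energy η (Fin.append (Fin.append g v) c)) else 0))
      (fun c _ => hnn g v c) (Finset.mem_univ c))
    have hend : pos (Fin.append (Fin.append g v) c) (T + m + T') = y := by
      rw [pos_append_right, pos_append_right, hz, hcc]
      abel
    rw [if_pos hend, energy_append, energy_append, hz, ← Real.exp_add, Real.exp_le_exp]
    have hG' : Good η (T + (m + T')) R := by rw [← add_assoc]; exact hG
    have h1 := (abs_le.1 (energy_le_left hG' g)).1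
    have h2 := (abs_le.1 (energy_le_right hG (Fin.append g v) c)).1
    have h3 := mul_le_mul_of_nonneg_left h1 hβ.le
    have h4 := mul_le_mul_of_nonneg_left h2 hβ.le
    push_cast
    rw [mul_add, mul_add]
    nlinarith
  · rw [if_neg hv, zero_mul]
    exact Finset.sum_nonneg (fun c _ => hnn g v c)

/-- partition function confined up to time `l` -/
noncomputable def ZW (β : ℝ) (η : ℕ → (Fin d → ℤ) → ℝ) (D l r : ℕ) : ℝ :=
  ∑ w : Fin (l + r) → Step d,
    if (∀ i ≤ l, ∀ k, |pos w i k| ≤ (D : ℤ)) then Real.exp (β * energy η w) else 0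

lemma ZW_eq (β : ℝ) (η : ℕ → (Fin d → ℤ) → ℝ) (D l r : ℕ) :
    ZW β η D l r = ∑ u : Fin l → Step d,
      (if Conf D u then Real.exp (β * energy η u) else 0) * ZF β (shift l (pos u l) η) r := by
  unfold ZW
  rw [sum_append]
  apply Finset.sum_congr rfl
  intro u _
  unfold ZF
  rw [Finset.mul_sum]
  apply Finset.sum_congr rfl
  intro v _
  have : (∀ i ≤ l, ∀ k, |pos (Fin.append u v) i k| ≤ (D : ℤ)) ↔ Conf D u := by
    unfold Conf
    apply forall_congr'
    intro i
    apply forall_congr'
    intro hi
    rw [pos_append_left u v hi]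
  by_cases hu : Conf D u
  · rw [if_pos (this.2 hu), if_pos hu, energy_append, mul_add, Real.exp_add]
  · rw [if_neg (fun h => hu (this.1 h)), if_neg hu, zero_mul]

lemma ZF_eq (β : ℝ) (η : ℕ → (Fin d → ℤ) → ℝ) (l r : ℕ) :
    ZF β η (l + r) = ∑ u : Fin l → Step d,
      Real.exp (β * energy η u) * ZF β (shift l (pos u l) η) r := by
  unfold ZF
  rw [sum_append]
  apply Finset.sum_congr rfl
  intro u _
  rw [Finset.mul_sum]
  apply Finset.sum_congr rfl
  intro v _
  rw [energy_append, mul_add, Real.exp_add]

/-- comparison by endpoint -/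
lemma ZW_le {β : ℝ} {η : ℕ → (Fin d → ℤ) → ℝ} {D l : ℕ} {A δ : ℝ} (hA : ZC β η D l ≤ δ * A)
    (hδ : 0 ≤ δ) (hY : ∀ u : Fin l → Step d, Conf D u → A ≤ ZY β η l (pos u l))
    (hd : 0 < d) (r : ℕ) :
    ZW β η D l r ≤ δ * ZF β η (l + r) := by
  rw [ZW_eq, ZF_eq]
  set Y := (Finset.univ : Finset (Fin l → Step d)).image (fun u => pos u l) with hYdef
  rw [← Finset.sum_fiberwise_of_maps_to (s := Finset.univ) (t := Y) (g := fun u => pos u l)
    (fun u _ => Finset.mem_image_of_mem _ (Finset.mem_univ u)),
    ← Finset.sum_fiberwise_of_maps_to (s := Finset.univ) (t := Y) (g := fun u => pos u l)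
    (fun u _ => Finset.mem_image_of_mem _ (Finset.mem_univ u)), Finset.mul_sum]
  apply Finset.sum_le_sum
  intro y _
  have e1 : ∑ u ∈ (Finset.univ : Finset (Fin l → Step d)) with pos u l = y,
      (if Conf D u then Real.exp (β * energy η u) else 0) * ZF β (shift l (pos u l) η) r =
      (∑ u ∈ (Finset.univ : Finset (Fin l → Step d)) with pos u l = y,
        (if Conf D u then Real.exp (β * energy η u) else 0)) * ZF β (shift l y η) r := by
    rw [Finset.sum_mul]
    apply Finset.sum_congr rfl
    intro u hu
    rw [(Finset.mem_filter.1 hu).2]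
  have e2 : ∑ u ∈ (Finset.univ : Finset (Fin l → Step d)) with pos u l = y,
      Real.exp (β * energy η u) * ZF β (shift l (pos u l) η) r =
      ZY β η l y * ZF β (shift l y η) r := by
    unfold ZY
    rw [← Finset.sum_filter, Finset.sum_mul]
    apply Finset.sum_congr rfl
    intro u hu
    rw [(Finset.mem_filter.1 hu).2]
  rw [e1, e2, ← mul_assoc]
  apply mul_le_mul_of_nonneg_right _ (ZF_pos hd β _ r).le
  by_cases hex : ∃ u : Fin l → Step d, Conf D u ∧ pos u l = y
  · obtain ⟨u, hu, hy⟩ := hex
    have h1 : ∑ u ∈ (Finset.univ : Finset (Fin l → Step d)) with pos u l = y,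
        (if Conf D u then Real.exp (β * energy η u) else 0) ≤ ZC β η D l := by
      unfold ZC
      apply Finset.sum_le_sum_of_subset_of_nonneg (Finset.filter_subset _ _)
      intro v _ _
      split_ifs
      · positivity
      · exact le_rfl
    refine h1.trans (hA.trans ?_)
    have := hY u hu
    rw [hy] at this
    exact mul_le_mul_of_nonneg_left this hδ
  · have h0 : ∑ u ∈ (Finset.univ : Finset (Fin l → Step d)) with pos u l = y,
        (if Conf D u then Real.exp (β * energy η u) else 0) = 0 := by
      apply Finset.sum_eq_zero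
      intro u hu
      rw [if_neg]
      intro hc
      exact hex ⟨u, hc, (Finset.mem_filter.1 hu).2⟩
    rw [h0]
    apply mul_nonneg hδ
    unfold ZY
    apply Finset.sum_nonneg
    intro u _
    split_ifs
    · positivity
    · exact le_rfl

/-- the deterministic comparison in a window, uniform in the remaining length -/
lemma compare_window (hd : 0 < d) {D M m : ℕ} (hD : 1 ≤ D) {β R δ L : ℝ} (hβ : 0 < β)
    (hδ : 0 < δ) {η : ℕ → (Fin d → ℤ) → ℝ}
    (hG : Good η (m + (4 * D * M + (4 * D * M + 2 * d * D))) R)
    (hL : -Real.log δ + 2 * (β * ((4 * D * M + (4 * D * M + 2 * d * D) : ℕ) * R)) +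
      (4 * D * M + (4 * D * M + 2 * d * D) : ℕ) * Real.log (2 * d) ≤ L)
    {j : ℕ} (hj : j ≤ M)
    (hlt : Real.log (ZC β η D m) <
      Real.log (ZC β (shift (4 * D * M) (Pi.single ⟨0, hd⟩ ((4 * D * j : ℕ) : ℤ)) η) D m) - L)
    (r : ℕ) :
    ZW β η D (m + (4 * D * M + (4 * D * M + 2 * d * D))) r ≤
      δ * ZF β η (m + (4 * D * M + (4 * D * M + 2 * d * D)) + r) := by
  set T := 4 * D * M with hT
  set T' := T + 2 * d * D with hT'
  set z : Fin d → ℤ := Pi.single ⟨0, hd⟩ ((4 * D * j : ℕ) : ℤ) with hz
  have hlen : m + (T + T') = T + m + T' := by omega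
  have hpath : pos (fun k : Fin T => goPath (⟨0, hd⟩ : Fin d) (2 * D * (M + j)) k.val) T = z := by
    rw [pos_goPath]
    · rw [hz]
      congr 1
      rw [hT]
      push_cast
      ring
    · rw [hT]
      nlinarith [Nat.mul_le_mul_left (2 * D) hj]
  have p0 := ZC_pos hd hD β η m
  have pj := ZC_pos hd hD β (shift T z η) m
  have hdR : (0 : ℝ) < 2 * d := by
    have : (0 : ℝ) < d := by exact_mod_cast hd
    linarith
  have hG' : Good η (T + m + T') R := by rw [← hlen]; exact hG
  apply ZW_le (A := ZC β (shift T z η) D m * Real.exp (-(β * ((T + T' : ℕ) * R)))) _ hδ.le _ hd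
  · -- incumbent
    refine (ZC_le hβ hG).trans ?_
    have h1 : Real.log (ZC β η D m * ((2 * (d : ℝ)) ^ (T + T') *
        Real.exp (β * ((T + T' : ℕ) * R)))) ≤
        Real.log (δ * (ZC β (shift T z η) D m * Real.exp (-(β * ((T + T' : ℕ) * R))))) := by
      rw [Real.log_mul hδ.ne' (by positivity), Real.log_mul pj.ne' (by positivity), Real.log_exp,
        Real.log_mul p0.ne' (by positivity), Real.log_mul (by positivity) (by positivity),
        Real.log_exp, Real.log_pow]
      linarith
    exact (Real.log_le_log_iff (by positivity) (by positivity)).1 h1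
  · -- competitor
    intro u hu
    have hy := par_pos u (le_refl (m + (T + T')))
    have hyb := hu _ (le_refl (m + (T + T')))
    generalize pos u (m + (T + T')) = y at hy hyb
    rw [hlen]
    apply ZY_ge hβ hG' _ hpath
    intro v hv
    apply exists_walk hd
    · have h1 : ∀ k, |(y - (z + pos v m)) k| ≤ 2 * (D : ℤ) + |z k| := by
        intro k
        have a1 := abs_le.1 (hyb k)
        have a2 := abs_le.1 (hv m le_rfl k)
        have a3 := abs_le.1 (le_refl |z k|)
        simp only [Pi.sub_apply, Pi.add_apply]
        rw [abs_le]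
        constructor <;> linarith [a1.1, a1.2, a2.1, a2.2, a3.1, a3.2]
      refine (Finset.sum_le_sum (fun k _ => h1 k)).trans ?_
      rw [Finset.sum_add_distrib]
      have h2 : ∑ k, |z k| = ((4 * D * j : ℕ) : ℤ) := by
        rw [Finset.sum_eq_single ⟨0, hd⟩]
        · rw [hz, Pi.single_eq_same]
          exact abs_of_nonneg (by positivity)
        · intro k _ hk
          rw [hz, Pi.single_eq_of_ne hk, abs_zero]
        · intro h
          exact absurd (Finset.mem_univ _) h
      rw [h2, Finset.sum_const, Finset.card_univ, Fintype.card_fin, nsmul_eq_mul]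
      have h3 : 4 * D * j ≤ 4 * D * M := Nat.mul_le_mul_left _ hj
      have h4 : ((4 * D * j : ℕ) : ℤ) ≤ ((4 * D * M : ℕ) : ℤ) := by exact_mod_cast h3
      rw [hT', hT]
      push_cast at h4 ⊢
      nlinarith
    · rw [par_sub, par_add, hy, par_pos v le_rfl, ← hpath, par_pos _ le_rfl]
      push_cast
      ring

end TH967.DP
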