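import Mathlib
import Pool.Agent.TH967.DP.Bound
import Pool.Agent.TH967.DP.Walk

open MeasureTheory ProbabilityTheory Filter Topology
open Classical

namespace TH967.DP

variable {Ω : Type*} [MeasurableSpace Ω] {P : Measure Ω} [IsProbabilityMeasure P] {d : ℕ}

/-- the logarithms of the confined partition functions of the `M + 1` blocks -/
noncomputable def Yv (ω : ℕ → (Fin d → ℤ) → Ω → ℝ) (hd : 0 < d) (β : ℝ) (D m T M : ℕ)
    (x : Ω) (j : Fin (M + 1)) : ℝ :=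
  Real.log (ZC β (shift (tj T j) (Pi.single ⟨0, hd⟩ ((4 * D * j.val : ℕ) : ℤ))
    (fun i y => ω i y x)) D m)

lemma Yv_zero (ω : ℕ → (Fin d → ℤ) → Ω → ℝ) (hd : 0 < d) (β : ℝ) (D m T M : ℕ) (x : Ω) :
    Yv ω hd β D m T M x 0 = Real.log (ZC β (fun i y => ω i y x) D m) := by
  unfold Yv
  have : (Pi.single ⟨0, hd⟩ ((4 * D * (0 : Fin (M + 1)).val : ℕ) : ℤ) : Fin d → ℤ) = 0 := by
    simp
  rw [this]
  unfold tj
  rw [if_pos rfl, shift_zero]

lemma Yv_ne (ω : ℕ → (Fin d → ℤ) → Ω → ℝ) (hd : 0 < d) (β : ℝ) (D m T M : ℕ) (x : Ω)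
    {j : Fin (M + 1)} (hj : j ≠ 0) :
    Yv ω hd β D m T M x j = Real.log (ZC β (shift T (Pi.single ⟨0, hd⟩ ((4 * D * j.val : ℕ) : ℤ))
      (fun i y => ω i y x)) D m) := by
  unfold Yv tj
  rw [if_neg hj]

lemma ymax_bound {ω : ℕ → (Fin d → ℤ) → Ω → ℝ} (h : IsEnv P ω) (hd : 0 < d) {β : ℝ}
    (hβ : 0 < β) {a b : ℝ} (hab : a < b) (hp : 0 < (P.map (ω 1 0)).real (Set.Ici b))
    (hm : 0 < (P.map (ω 1 0)).real (Set.Iic a)) {D m : ℕ} (T M : ℕ) (hD : 1 ≤ D) (hmpos : 1 ≤ m)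
    {L : ℝ} (hL0 : 0 ≤ L) :
    P.real {x | ∀ j, Yv ω hd β D m T M x j - L ≤ Yv ω hd β D m T M x 0} ≤
      1 / (M + 1) + M * ((2 * L + 2) * Real.sqrt ((2 * D + 1) ^ d *
        (1 / (P.map (ω 1 0)).real (Set.Ici b) + 1 / (P.map (ω 1 0)).real (Set.Iic a))) /
        ((1 - Real.exp (-(β * (b - a)))) * Real.sqrt m)) := by
  have hprob : IsProbabilityMeasure (P.map (ω 1 0)) :=
    Measure.isProbabilityMeasure_map (h.meas 1 0).aemeasurable
  have hl := law3 h hd hD β m T M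
  have hYm : Measurable (fun x => Yv ω hd β D m T M x) := by
    rw [measurable_pi_iff]
    intro j
    have hm : Measurable (fun (a : Ω) (k : Blk d D m) =>
      ω (emb hd D m T (j, k)).1 (emb hd D m T (j, k)).2 a) := by
      rw [measurable_pi_iff]
      intro k
      exact h.meas _ _
    have e : (fun x => Yv ω hd β D m T M x j) = (YY β (visC (d := d) (D := D) (m := m))) ∘
        (fun (a : Ω) (k : Blk d D m) =>
      ω (emb hd D m T (j, k)).1 (emb hd D m T (j, k)).2 a) := by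
      ext x
      unfold Yv
      rw [← YY_visC]
      rfl
    rw [e]
    exact (measurable_YY β _).comp hm
  have hS : MeasurableSet {y : Fin (M + 1) → ℝ | ∀ j, y j - L ≤ y 0} := by
    have : {y : Fin (M + 1) → ℝ | ∀ j, y j - L ≤ y 0} =
        ⋂ j, {y : Fin (M + 1) → ℝ | y j - L ≤ y 0} := by
      ext y; simp
    rw [this]
    apply MeasurableSet.iInter
    intro j
    exact measurableSet_le ((measurable_pi_apply j).sub measurable_const) (measurable_pi_apply 0)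
  have e : P.real {x | ∀ j, Yv ω hd β D m T M x j - L ≤ Yv ω hd β D m T M x 0} =
      (P.map (fun x => Yv ω hd β D m T M x)).real
        {y : Fin (M + 1) → ℝ | ∀ j, y j - L ≤ y 0} := by
    rw [map_measureReal_apply hYm hS]
    rfl
  have hl' : P.map (fun x => Yv ω hd β D m T M x) =
      Measure.pi (fun _ : Fin (M + 1) => rho β d D m (P.map (ω 1 0))) := hl
  rw [e, hl']
  have hrho : IsProbabilityMeasure (rho β d D m (P.map (ω 1 0))) := by
    unfold rho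
    exact Measure.isProbabilityMeasure_map (measurable_YY β _).aemeasurable
  exact iid_max _ (fun y => rho_conc hd hβ hab hp hm hD hmpos hL0 y)

lemma tendsto_npow {t : ℝ} (ht : 0 < t) : Tendsto (fun n : ℕ => (n : ℝ) ^ t) atTop atTop :=
  (tendsto_rpow_atTop ht).comp tendsto_natCast_atTop_atTop

lemma pow_dom {s t : ℝ} (hst : s < t) (c : ℝ) :
    ∀ᶠ n : ℕ in atTop, c * (n : ℝ) ^ s ≤ (n : ℝ) ^ t := by
  have h := (tendsto_npow (sub_pos.2 hst)).eventually_ge_atTop c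
  filter_upwards [h, eventually_ge_atTop 1] with n hn hn1
  have hn0 : (0 : ℝ) < n := by exact_mod_cast hn1
  calc c * (n : ℝ) ^ s ≤ (n : ℝ) ^ (t - s) * (n : ℝ) ^ s :=
        mul_le_mul_of_nonneg_right hn (by positivity)
    _ = (n : ℝ) ^ t := by rw [← Real.rpow_add hn0]; congr 1; ring

lemma G_dom {e K1 : ℝ} (he : 0 < e) (hK1 : 0 ≤ K1) (d : ℕ) (c : ℝ) :
    ∀ᶠ n : ℕ in atTop,
      3 * ((n : ℝ) * (2 * n + 1) ^ d * (K1 * Real.exp (-(n : ℝ) ^ e))) ≤ (n : ℝ) ^ (-c) := by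
  have h1 := (tendsto_rpow_mul_exp_neg_mul_atTop_nhds_zero (((d : ℝ) + 1 + c) / e) 1 one_pos).comp
    (tendsto_npow he)
  have h2 := h1.const_mul (3 * (3 ^ d * K1))
  rw [mul_zero] at h2
  have h3 := h2.eventually_lt_const (one_pos)
  filter_upwards [h3, eventually_ge_atTop 1] with n hn hn'
  have hn1 : (1 : ℝ) ≤ n := by exact_mod_cast hn'
  have hn0 : (0 : ℝ) < n := by linarith
  simp only [Function.comp, one_mul, neg_mul] at hn
  have e1 : ((n : ℝ) ^ e) ^ (((d : ℝ) + 1 + c) / e) = (n : ℝ) * (n : ℝ) ^ d * (n : ℝ) ^ c := by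
    rw [← Real.rpow_mul hn0.le, mul_div_cancel₀ _ he.ne', Real.rpow_add hn0, Real.rpow_add hn0,
      Real.rpow_one, Real.rpow_natCast, mul_comm ((n : ℝ) ^ d)]
  rw [e1] at hn
  have e2 : (2 * (n : ℝ) + 1) ^ d ≤ 3 ^ d * (n : ℝ) ^ d := by
    rw [← mul_pow]
    apply pow_le_pow_left₀ (by positivity)
    linarith
  have hc : (n : ℝ) ^ (-c) * (n : ℝ) ^ c = 1 := by
    rw [← Real.rpow_add hn0]; simp
  have hcp : 0 < (n : ℝ) ^ (-c) := by positivity
  calc 3 * ((n : ℝ) * (2 * n + 1) ^ d * (K1 * Real.exp (-(n : ℝ) ^ e)))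
      ≤ 3 * ((n : ℝ) * (3 ^ d * (n : ℝ) ^ d) * (K1 * Real.exp (-(n : ℝ) ^ e))) := by gcongr
    _ = (3 * ((n : ℝ) * (3 ^ d * (n : ℝ) ^ d) * (K1 * Real.exp (-(n : ℝ) ^ e)))) *
        ((n : ℝ) ^ (-c) * (n : ℝ) ^ c) := by rw [hc, mul_one]
    _ = (n : ℝ) ^ (-c) * (3 * (3 ^ d * K1) * ((n : ℝ) * (n : ℝ) ^ d * (n : ℝ) ^ c *
        Real.exp (-(n : ℝ) ^ e))) := by ring
    _ ≤ (n : ℝ) ^ (-c) * 1 := by gcongr
    _ = (n : ℝ) ^ (-c) := mul_one _

lemma polymerProb_eq (hd : 0 < d) (β : ℝ) (η : ℕ → (Fin d → ℤ) → ℝ) (n : ℕ)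
    (A : Set (Fin n → Step d)) :
    polymerProb β η n A =
      (∑ w : Fin n → Step d, A.indicator (fun w => Real.exp (β * energy η w)) w) / ZF β η n := by
  unfold polymerProb partitionFn ZF
  have : (0 : ℝ) < (2 * d) ^ n := by
    have : (0 : ℝ) < d := by exact_mod_cast hd
    positivity
  rw [div_div_div_cancel_right₀ this.ne']

lemma polymerProb_cyl (hd : 0 < d) {β : ℝ} {η : ℕ → (Fin d → ℤ) → ℝ} {l r : ℕ} {ρ δ : ℝ}
    (h : ZW β η ⌊ρ⌋₊ l r ≤ δ * ZF β η (l + r)) :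
    polymerProb β η (l + r) (cyl d (l + r) l ρ) ≤ δ := by
  rw [polymerProb_eq hd, div_le_iff₀ (ZF_pos hd β η _)]
  refine le_trans ?_ h
  unfold ZW
  apply Finset.sum_le_sum
  intro w _
  by_cases hw : w ∈ cyl d (l + r) l ρ
  · have hc : ∀ i ≤ l, ∀ k, |pos w i k| ≤ ((⌊ρ⌋₊ : ℕ) : ℤ) := by
      intro i hi k
      have h2 := (abs_le_euclid (pos w i) k).trans (hw i hi)
      have h3 : ((pos w i k).natAbs : ℝ) ≤ ρ := by
        rw [Nat.cast_natAbs]
        push_cast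
        exact h2
      have h4 := Nat.le_floor h3
      rw [Int.abs_eq_natAbs]
      exact_mod_cast h4
    rw [Set.indicator_of_mem hw, if_pos hc]
  · rw [Set.indicator_of_notMem hw]
    split_ifs
    · positivity
    · exact le_rfl

/-- numerical bound -/
lemma E_bound {n D m : ℕ} {K q κ lp : ℝ} (hn1 : (1 : ℝ) ≤ n) (hK : 0 < K) (hq : 0 < q)
    (hlp : 0 ≤ lp) (hDle : (D : ℝ) ≤ (n : ℝ) ^ κ) (hnκ1 : (1 : ℝ) ≤ (n : ℝ) ^ κ)
    (hmn : (n : ℝ) / 2 ≤ m) :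
    (2 * (n : ℝ) ^ lp + 2) * Real.sqrt ((2 * D + 1) ^ d * K) / (q * Real.sqrt m) ≤
      4 * Real.sqrt (3 ^ d * K) * Real.sqrt 2 / q * (n : ℝ) ^ (lp + d * κ / 2 - 1 / 2) := by
  have hn0 : (0 : ℝ) < n := by linarith
  set L := (n : ℝ) ^ lp with hL
  have hL1 : 1 ≤ L := Real.one_le_rpow hn1 hlp
  have t1 : 2 * L + 2 ≤ 4 * L := by linarith
  have t2 : Real.sqrt ((2 * D + 1) ^ d * K) ≤ Real.sqrt (3 ^ d * K) * (n : ℝ) ^ (d * κ / 2) := by
    have : (2 * (D : ℝ) + 1) ^ d * K ≤ (3 ^ d * K) * (n : ℝ) ^ (d * κ) := by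
      have u1 : (2 * (D : ℝ) + 1) ≤ 3 * (n : ℝ) ^ κ := by linarith
      have u2 : (2 * (D : ℝ) + 1) ^ d ≤ 3 ^ d * (n : ℝ) ^ (d * κ) := by
        calc (2 * (D : ℝ) + 1) ^ d ≤ (3 * (n : ℝ) ^ κ) ^ d :=
              pow_le_pow_left₀ (by positivity) u1 d
          _ = 3 ^ d * (n : ℝ) ^ (d * κ) := by
              rw [mul_pow, mul_comm (d : ℝ) κ, Real.rpow_mul hn0.le, Real.rpow_natCast]
      calc (2 * (D : ℝ) + 1) ^ d * K ≤ (3 ^ d * (n : ℝ) ^ (d * κ)) * K := by gcongr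
        _ = _ := by ring
    refine (Real.sqrt_le_sqrt this).trans ?_
    rw [Real.sqrt_mul (by positivity)]
    apply le_of_eq
    congr 1
    rw [Real.sqrt_eq_rpow, ← Real.rpow_mul hn0.le]
    congr 1
    ring
  have t3 : Real.sqrt n / Real.sqrt 2 ≤ Real.sqrt m := by
    rw [← Real.sqrt_div hn0.le]
    exact Real.sqrt_le_sqrt hmn
  have hs2 : 0 < Real.sqrt 2 := Real.sqrt_pos.2 (by norm_num)
  have hsn : 0 < Real.sqrt n := Real.sqrt_pos.2 hn0
  calc (2 * L + 2) * Real.sqrt ((2 * D + 1) ^ d * K) / (q * Real.sqrt m)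
      ≤ (4 * L) * (Real.sqrt (3 ^ d * K) * (n : ℝ) ^ (d * κ / 2)) /
        (q * (Real.sqrt n / Real.sqrt 2)) := by gcongr
    _ = (4 * Real.sqrt (3 ^ d * K) * Real.sqrt 2 / q) *
        (L * (n : ℝ) ^ (d * κ / 2) / Real.sqrt n) := by
        field_simp
    _ = _ := by
        rw [hL, Real.sqrt_eq_rpow (n : ℝ), ← Real.rpow_add hn0, ← Real.rpow_sub hn0]

/-- one scale: outside an event of polynomially small probability, the polymer of every length
`n ≥ l` leaves the cylinder of length `l` with overwhelming polymer probability -/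
theorem one_scale {ω : ℕ → (Fin d → ℤ) → Ω → ℝ} (h : IsEnv P ω) (hd : 0 < d)
    (hexp : ∀ b : ℝ, Integrable (fun x => Real.exp (b * ω 1 0 x)) P)
    (hnc : ¬ ∃ c : ℝ, ∀ᵐ x ∂P, ω 1 0 x = c) {β : ℝ} (hβ : 0 < β) {κ lam : ℝ} (hκ : 0 < κ)
    (hκ2 : κ * (d + 2) < 1) (hlam : lam < (1 - d * κ) / 2) :
    ∃ c : ℝ, 0 < c ∧ ∀ᶠ l : ℕ in atTop, ∃ B : Set Ω, P.real B ≤ (l : ℝ) ^ (-c) ∧
      ∀ x, x ∉ B → ∀ n, l ≤ n → polymerProb β (fun i y => ω i y x) n
        (cyl d n l ((l : ℝ) ^ κ)) ≤ Real.exp (-(l : ℝ) ^ lam) := by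
  obtain ⟨a, b, hab, hp, hm⟩ := exists_gap (h.meas 1 0) hexp hnc
  set K := 1 / (P.map (ω 1 0)).real (Set.Ici b) + 1 / (P.map (ω 1 0)).real (Set.Iic a) with hK
  have hKpos : 0 < K := by positivity
  set q := 1 - Real.exp (-(β * (b - a))) with hq
  have hqpos : 0 < q := by
    rw [hq]
    have : Real.exp (-(β * (b - a))) < 1 := by
      rw [← Real.exp_zero]
      apply Real.exp_lt_exp.2
      have := mul_pos hβ (sub_pos.2 hab)
      linarith
    linarith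
  have hκ3 : κ < (1 - d * κ) / 2 := by linarith
  set mx := max lam κ with hmx
  have hmax : mx < (1 - d * κ) / 2 := max_lt hlam hκ3
  have hmx1 : lam ≤ mx := le_max_left _ _
  have hmx2 : κ ≤ mx := le_max_right _ _
  set g0 := (1 - d * κ) / 2 - mx with hg0
  have hg0pos : 0 < g0 := by rw [hg0]; linarith
  set lp := mx + g0 / 2 with hlp
  set al := g0 / 4 with hal
  set e := g0 / 8 with he
  have hκ1 : κ + al < 1 := by
    have : (0 : ℝ) ≤ d * κ := by positivity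
    rw [hal]; linarith
  have hlp1 : lam < lp := by rw [hlp]; linarith
  have hlp2 : κ + al < lp := by rw [hlp, hal]; linarith
  have hlp4 : κ + al + e < lp := by rw [hlp, hal, he]; linarith
  have hlp0 : 0 ≤ lp := by rw [hlp]; linarith
  set K1 := ∫ x, (Real.exp (ω 1 0 x) + Real.exp (-ω 1 0 x)) ∂P with hK1
  have hK1pos : 0 ≤ K1 := integral_nonneg (fun x => by positivity)
  set C := 4 * Real.sqrt (3 ^ d * K) * Real.sqrt 2 / q with hC
  have hCpos : 0 ≤ C := by positivity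
  have hlogd : 0 ≤ Real.log (2 * d) := by
    apply Real.log_nonneg
    have : (1 : ℝ) ≤ d := by exact_mod_cast hd
    linarith
  refine ⟨e, by rw [he]; linarith, ?_⟩
  have q1 := pow_dom hκ1 (2 * (8 + 2 * d))
  have q2 := pow_dom hlp1 3
  have q3 := pow_dom hlp4 (3 * (2 * β * (8 + 2 * d)))
  have q4 := pow_dom hlp2 (3 * ((8 + 2 * d) * Real.log (2 * d)))
  have q5 := pow_dom (s := -al) (t := -e) (by rw [hal, he]; linarith) 3
  have q6 := pow_dom (s := al + (lp + d * κ / 2 - 1 / 2)) (t := -e)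
    (by rw [hlp, hal, he]; linarith) (3 * C)
  have q7 := G_dom (e := e) (by rw [he]; linarith) hK1pos d e
  filter_upwards [q1, q2, q3, q4, q5, q6, q7, eventually_ge_atTop 1] with n r1 r2 r3 r4 r5 r6 r7 hn
  have hn1 : (1 : ℝ) ≤ n := by exact_mod_cast hn
  have hn0 : (0 : ℝ) < n := by linarith
  set D := ⌊(n : ℝ) ^ κ⌋₊ with hD
  set M := ⌊(n : ℝ) ^ al⌋₊ with hM
  have hal0 : 0 < al := by rw [hal]; linarith
  have hnκ1 : (1 : ℝ) ≤ (n : ℝ) ^ κ := Real.one_le_rpow hn1 hκ.le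
  have hnal1 : (1 : ℝ) ≤ (n : ℝ) ^ al := Real.one_le_rpow hn1 hal0.le
  have hD1 : 1 ≤ D := Nat.le_floor (by exact_mod_cast hnκ1)
  have hDle : (D : ℝ) ≤ (n : ℝ) ^ κ := Nat.floor_le (by positivity)
  have hMle : (M : ℝ) ≤ (n : ℝ) ^ al := Nat.floor_le (by positivity)
  have hMlt : (n : ℝ) ^ al < (M : ℝ) + 1 := Nat.lt_floor_add_one _
  set U := 4 * D * M + (4 * D * M + 2 * d * D) with hU
  have hUle : (U : ℝ) ≤ (8 + 2 * d) * (n : ℝ) ^ (κ + al) := by
    rw [hU, Real.rpow_add hn0]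
    push_cast
    have a1 : (D : ℝ) * M ≤ (n : ℝ) ^ κ * (n : ℝ) ^ al := by gcongr
    have a2 : (D : ℝ) ≤ (n : ℝ) ^ κ * (n : ℝ) ^ al := by
      calc (D : ℝ) ≤ (n : ℝ) ^ κ * 1 := by linarith
        _ ≤ _ := by gcongr
    have a3 : 2 * (d : ℝ) * D ≤ 2 * d * ((n : ℝ) ^ κ * (n : ℝ) ^ al) := by gcongr
    nlinarith
  rw [Real.rpow_one] at r1
  have hUn : (U : ℝ) ≤ n / 2 := by linarith
  have hUn' : U ≤ n := by
    have : (U : ℝ) ≤ n := by linarith
    exact_mod_cast this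
  obtain ⟨m, hm'⟩ := Nat.exists_eq_add_of_le' hUn'
  have hmn : (n : ℝ) / 2 ≤ m := by
    have : (n : ℝ) = m + (U : ℝ) := by exact_mod_cast hm'
    linarith
  have hm1 : 1 ≤ m := by
    have : (0 : ℝ) < m := by linarith
    exact_mod_cast this
  set L := (n : ℝ) ^ lp with hL
  have hL1 : 1 ≤ L := Real.one_le_rpow hn1 hlp0
  have hLcond : -Real.log (Real.exp (-(n : ℝ) ^ lam)) +
      2 * (β * ((U : ℕ) * (n : ℝ) ^ e)) + (U : ℕ) * Real.log (2 * d) ≤ L := by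
    rw [Real.log_exp, neg_neg]
    have s2 : 2 * (β * ((U : ℕ) * (n : ℝ) ^ e)) ≤
        2 * β * (8 + 2 * d) * (n : ℝ) ^ (κ + al + e) := by
      rw [Real.rpow_add hn0 (κ + al) e]
      calc 2 * (β * ((U : ℕ) * (n : ℝ) ^ e))
          ≤ 2 * (β * (((8 + 2 * d) * (n : ℝ) ^ (κ + al)) * (n : ℝ) ^ e)) := by gcongr
        _ = _ := by ring
    have s3 : (U : ℝ) * Real.log (2 * d) ≤
        (8 + 2 * d) * Real.log (2 * d) * (n : ℝ) ^ (κ + al) := by
      calc (U : ℝ) * Real.log (2 * d) ≤ ((8 + 2 * d) * (n : ℝ) ^ (κ + al)) * Real.log (2 * d) := by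
            gcongr
        _ = _ := by ring
    linarith
  refine ⟨{x | ¬ Good (fun i y => ω i y x) n ((n : ℝ) ^ e)} ∪
    {x | ∀ j, Yv ω hd β D m (4 * D * M) M x j - L ≤ Yv ω hd β D m (4 * D * M) M x 0}, ?_, ?_⟩
  · have b1 := good_bound h hexp n ((n : ℝ) ^ e)
    have b2 := ymax_bound h hd hβ hab hp hm (D := D) (m := m) (4 * D * M) M hD1 hm1
      (L := L) (by linarith)
    have b3 := E_bound (d := d) (n := n) (D := D) (m := m) hn1 hKpos hqpos hlp0 hDle hnκ1 hmn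
    have b4 : (1 : ℝ) / (M + 1) ≤ (n : ℝ) ^ (-al) := by
      rw [Real.rpow_neg hn0.le, ← one_div]
      apply one_div_le_one_div_of_le (by positivity) hMlt.le
    have b5 : (M : ℝ) * (C * (n : ℝ) ^ (lp + d * κ / 2 - 1 / 2)) ≤
        C * (n : ℝ) ^ (al + (lp + d * κ / 2 - 1 / 2)) := by
      rw [Real.rpow_add hn0 al]
      calc (M : ℝ) * (C * (n : ℝ) ^ (lp + d * κ / 2 - 1 / 2))
          ≤ (n : ℝ) ^ al * (C * (n : ℝ) ^ (lp + d * κ / 2 - 1 / 2)) := by gcongr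
        _ = _ := by ring
    have b6 : (M : ℝ) * ((2 * L + 2) * Real.sqrt ((2 * D + 1) ^ d * K) / (q * Real.sqrt m)) ≤
        (M : ℝ) * (C * (n : ℝ) ^ (lp + d * κ / 2 - 1 / 2)) := by gcongr
    refine (measureReal_union_le _ _).trans ?_
    linarith
  · intro x hx k hk
    simp only [Set.mem_union, Set.mem_ofPred_eq, not_or, not_not, not_forall, not_le] at hx
    obtain ⟨hG, j, hj⟩ := hx
    obtain ⟨r, rfl⟩ := Nat.exists_eq_add_of_le hk
    have hj0 : j ≠ 0 := by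
      intro h0
      subst h0
      linarith
    rw [Yv_zero, Yv_ne _ _ _ _ _ _ _ _ hj0] at hj
    apply polymerProb_cyl hd
    rw [← hD]
    have hG2 : Good (fun i y => ω i y x) (m + U) ((n : ℝ) ^ e) := by rw [← hm']; exact hG
    have := compare_window hd hD1 hβ (Real.exp_pos (-(n : ℝ) ^ lam)) hG2 hLcond
      (j := j.val) (by have := j.isLt; omega) hj r
    rw [← hU, ← hm'] at this
    exact this

end TH967.DP
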