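import Mathlib
import Pool.Agent.TH967.DP.Bad

open MeasureTheory ProbabilityTheory Filter Topology
open Classical

namespace TH967.DP

variable {Ω : Type*} [MeasurableSpace Ω] {P : Measure Ω} [IsProbabilityMeasure P] {d : ℕ}

lemma polymerProb_mono (hd : 0 < d) (β : ℝ) (η : ℕ → (Fin d → ℤ) → ℝ) (n : ℕ)
    {A B : Set (Fin n → Step d)} (hAB : A ⊆ B) : polymerProb β η n A ≤ polymerProb β η n B := by
  rw [polymerProb_eq hd, polymerProb_eq hd]
  apply div_le_div_of_nonneg_right _ (ZF_pos hd β η n).le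
  apply Finset.sum_le_sum
  intro w _
  exact Set.indicator_le_indicator_of_subset hAB (fun _ => (Real.exp_pos _).le) w

lemma polymerProb_nonneg (hd : 0 < d) (β : ℝ) (η : ℕ → (Fin d → ℤ) → ℝ) (n : ℕ)
    (A : Set (Fin n → Step d)) : 0 ≤ polymerProb β η n A := by
  rw [polymerProb_eq hd]
  apply div_nonneg _ (ZF_pos hd β η n).le
  apply Finset.sum_nonneg
  intro w _
  exact Set.indicator_nonneg (fun _ _ => (Real.exp_pos _).le) _

lemma polymerProb_univ (hd : 0 < d) (β : ℝ) (η : ℕ → (Fin d → ℤ) → ℝ) (n : ℕ) :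
    polymerProb β η n Set.univ = 1 := by
  rw [polymerProb_eq hd]
  simp only [Set.indicator_univ]
  exact div_self (ZF_pos hd β η n).ne'

lemma cyl_one (d n : ℕ) : cyl d n n ((n : ℝ) ^ (1 : ℝ)) = Set.univ := by
  rw [Real.rpow_one]
  ext w
  simp only [Set.mem_univ, iff_true]
  intro i _
  exact euclid_pos_le w i

/-- almost surely, at all large scales and for every longer polymer -/
theorem as_escape {ω : ℕ → (Fin d → ℤ) → Ω → ℝ} (h : IsEnv P ω) (hd : 0 < d)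
    (hexp : ∀ b : ℝ, Integrable (fun x => Real.exp (b * ω 1 0 x)) P)
    (hnc : ¬ ∃ c : ℝ, ∀ᵐ x ∂P, ω 1 0 x = c) {β : ℝ} (hβ : 0 < β) {κ lam : ℝ} (hκ : 0 < κ)
    (hκ2 : κ * (d + 2) < 1) (hlam : lam < (1 - d * κ) / 2) :
    ∀ᵐ x ∂P, ∀ᶠ l : ℕ in atTop, ∀ n, l ≤ n → polymerProb β (fun i y => ω i y x) n
        (cyl d n l ((l : ℝ) ^ κ)) ≤ Real.exp (-(l : ℝ) ^ lam) := by
  have hd0 : (0 : ℝ) ≤ d := by positivity
  set mx := max lam 0 with hmx
  have hmx0 : 0 ≤ mx := le_max_right _ _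
  have hmxl : lam ≤ mx := le_max_left _ _
  have hg2 : mx < (1 - d * κ) / 2 := by
    apply max_lt hlam
    nlinarith
  set g1 := 1 - κ * (d + 2) with hg1
  set g2 := (1 - d * κ) / 2 - mx with hg2'
  have hg1p : 0 < g1 := by rw [hg1]; linarith
  have hg2p : 0 < g2 := by rw [hg2']; linarith
  set s := min g1 g2 / (2 * (d + 2)) with hs
  have hmin : 0 < min g1 g2 := lt_min hg1p hg2p
  have hd2 : (0 : ℝ) < 2 * (d + 2) := by linarith
  have hspos : 0 < s := div_pos hmin hd2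
  have hs2 : s * (2 * (d + 2)) = min g1 g2 := by rw [hs]; field_simp
  have hs3 : s * (2 * (d + 2)) ≤ g1 := hs2.le.trans (min_le_left _ _)
  have hs4 : s * (2 * (d + 2)) ≤ g2 := hs2.le.trans (min_le_right _ _)
  have hsd : 0 ≤ s * d := by positivity
  set κ' := κ + s with hκ'
  have hκ'0 : 0 < κ' := by rw [hκ']; linarith
  have hκ'2 : κ' * (d + 2) < 1 := by rw [hκ']; nlinarith
  have hmx' : mx < (1 - d * κ') / 2 := by
    have : mx + d * s / 2 < (1 - d * κ) / 2 := by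
      have : g2 = (1 - d * κ) / 2 - mx := hg2'
      nlinarith
    rw [hκ']
    nlinarith
  set lam' := (mx + (1 - d * κ') / 2) / 2 with hlam'
  have hl1 : mx < lam' := by rw [hlam']; linarith
  have hl2 : lam' < (1 - d * κ') / 2 := by rw [hlam']; linarith
  obtain ⟨c, hc, hev⟩ := one_scale h hd hexp hnc hβ hκ'0 hκ'2 hl2
  have htp : Tendsto (fun k : ℕ => 2 ^ k) atTop atTop :=
    tendsto_pow_atTop_atTop_of_one_lt (by norm_num)
  obtain ⟨k0, hk0⟩ := eventually_atTop.1 (htp.eventually hev)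
  choose! B hB using hk0
  -- Borel-Cantelli
  have hsum : ∑' k, P (B (k + k0)) ≠ ⊤ := by
    have hle : ∀ k, P (B (k + k0)) ≤ ENNReal.ofReal (((2 : ℝ) ^ (-c)) ^ (k + k0)) := by
      intro k
      have h1 := (hB (k + k0) (by omega)).1
      rw [← ofReal_measureReal (μ := P) (s := B (k + k0))]
      apply ENNReal.ofReal_le_ofReal
      refine h1.trans ?_
      push_cast
      rw [← Real.rpow_natCast, ← Real.rpow_natCast, ← Real.rpow_mul (by norm_num),
        ← Real.rpow_mul (by norm_num), mul_comm]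
    have hr1 : (2 : ℝ) ^ (-c) < 1 := Real.rpow_lt_one_of_one_lt_of_neg (by norm_num) (by linarith)
    have hr0 : 0 ≤ (2 : ℝ) ^ (-c) := by positivity
    have hsm : Summable (fun k : ℕ => ((2 : ℝ) ^ (-c)) ^ (k + k0)) :=
      (summable_nat_add_iff k0).2 (summable_geometric_of_lt_one hr0 hr1)
    exact ne_top_of_le_ne_top hsm.tsum_ofReal_ne_top (ENNReal.tsum_le_tsum hle)
  have hae := ae_eventually_notMem hsum
  -- interpolation thresholds
  have p1 := pow_dom (s := κ) (t := κ') (by rw [hκ']; linarith) ((2 : ℝ) ^ κ)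
  have p2 := pow_dom hl1 ((2 : ℝ) ^ mx)
  obtain ⟨N, hN⟩ := eventually_atTop.1 (p1.and p2)
  filter_upwards [hae] with x hx
  obtain ⟨K, hK⟩ := eventually_atTop.1 hx
  rw [eventually_atTop]
  refine ⟨2 * (N + 2 ^ (K + k0)) + 2, fun l hl n hn => ?_⟩
  have hl0 : l ≠ 0 := by omega
  set j := Nat.log 2 l with hj
  have hj1 : 2 ^ j ≤ l := Nat.pow_log_le_self 2 hl0
  have hj2 : l < 2 ^ (j + 1) := Nat.lt_pow_succ_log_self (by norm_num) l
  have hj3 : N + 2 ^ (K + k0) < 2 ^ j := by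
    rw [pow_succ] at hj2
    omega
  have hj4 : K + k0 < j := by
    have : 2 ^ (K + k0) < 2 ^ j := by omega
    exact (Nat.pow_lt_pow_iff_right (by norm_num)).1 this
  obtain ⟨i, hi⟩ := Nat.exists_eq_add_of_le' (show k0 ≤ j by omega)
  have hnot : x ∉ B j := by
    rw [hi]
    exact hK i (by omega)
  have hmain := (hB j (by omega)).2 x hnot n (hj1.trans hn)
  obtain ⟨hp1, hp2⟩ := hN (2 ^ j) ((Nat.le_add_right _ _).trans hj3.le)
  have hlR : (l : ℝ) ≤ 2 * ((2 ^ j : ℕ) : ℝ) := by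
    have : l ≤ 2 * 2 ^ j := by rw [pow_succ] at hj2; omega
    exact_mod_cast this
  have hl1R : (1 : ℝ) ≤ l := by
    have : 1 ≤ l := by omega
    exact_mod_cast this
  have hjpos : (0 : ℝ) ≤ ((2 ^ j : ℕ) : ℝ) := by positivity
  have ha : (l : ℝ) ^ κ ≤ ((2 ^ j : ℕ) : ℝ) ^ κ' := by
    calc (l : ℝ) ^ κ ≤ (2 * ((2 ^ j : ℕ) : ℝ)) ^ κ :=
          Real.rpow_le_rpow (by positivity) hlR hκ.le
      _ = 2 ^ κ * ((2 ^ j : ℕ) : ℝ) ^ κ := Real.mul_rpow (by norm_num) hjpos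
      _ ≤ _ := hp1
  have hb : (l : ℝ) ^ lam ≤ ((2 ^ j : ℕ) : ℝ) ^ lam' := by
    calc (l : ℝ) ^ lam ≤ (l : ℝ) ^ mx := Real.rpow_le_rpow_of_exponent_le hl1R hmxl
      _ ≤ (2 * ((2 ^ j : ℕ) : ℝ)) ^ mx := Real.rpow_le_rpow (by positivity) hlR hmx0
      _ = 2 ^ mx * ((2 ^ j : ℕ) : ℝ) ^ mx := Real.mul_rpow (by norm_num) hjpos
      _ ≤ _ := hp2
  calc polymerProb β (fun i y => ω i y x) n (cyl d n l ((l : ℝ) ^ κ))
      ≤ polymerProb β (fun i y => ω i y x) n (cyl d n (2 ^ j) (((2 ^ j : ℕ) : ℝ) ^ κ')) := by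
        apply polymerProb_mono hd
        intro w hw i hi
        exact (hw i (hi.trans hj1)).trans ha
    _ ≤ Real.exp (-((2 ^ j : ℕ) : ℝ) ^ lam') := hmain
    _ ≤ Real.exp (-(l : ℝ) ^ lam) := Real.exp_le_exp.2 (neg_le_neg hb)

/-- the wandering exponent is at least `1/(d+2)` -/
theorem nu_ge' {ω : ℕ → (Fin d → ℤ) → Ω → ℝ} (h : IsEnv P ω) (hd : 0 < d)
    (hexp : ∀ b : ℝ, Integrable (fun x => Real.exp (b * ω 1 0 x)) P)
    (hnc : ¬ ∃ c : ℝ, ∀ᵐ x ∂P, ω 1 0 x = c) {β : ℝ} (hβ : 0 < β) :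
    1 / ((d : ℝ) + 2) ≤ sInf {a : ℝ | 0 < a ∧
      ∫⁻ x, liminf (fun n : ℕ => ENNReal.ofReal (polymerProb β (fun i y => ω i y x) n
        (cyl d n n ((n : ℝ) ^ a)))) atTop ∂P = 1} := by
  apply le_csInf
  · refine ⟨1, one_pos, ?_⟩
    have : ∀ x, liminf (fun n : ℕ => ENNReal.ofReal (polymerProb β (fun i y => ω i y x) n
        (cyl d n n ((n : ℝ) ^ (1 : ℝ))))) atTop = 1 := by
      intro x
      have : (fun n : ℕ => ENNReal.ofReal (polymerProb β (fun i y => ω i y x) n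
        (cyl d n n ((n : ℝ) ^ (1 : ℝ))))) = fun _ => 1 := by
        ext1 n
        rw [cyl_one, polymerProb_univ hd, ENNReal.ofReal_one]
      rw [this]
      exact liminf_const _
    simp_rw [this]
    simp
  · rintro a ⟨ha0, ha1⟩
    by_contra hcon
    push Not at hcon
    have hd2 : (0 : ℝ) < (d : ℝ) + 2 := by positivity
    have ha2 : a * (d + 2) < 1 := by
      rw [lt_div_iff₀ hd2] at hcon
      exact hcon
    have hae := as_escape h hd hexp hnc hβ ha0 ha2 (lam := a) (by linarith)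
    have hz : ∀ᵐ x ∂P, liminf (fun n : ℕ => ENNReal.ofReal (polymerProb β
        (fun i y => ω i y x) n (cyl d n n ((n : ℝ) ^ a)))) atTop = 0 := by
      filter_upwards [hae] with x hx
      apply Tendsto.liminf_eq
      have h1 : Tendsto (fun n : ℕ => Real.exp (-(n : ℝ) ^ a)) atTop (𝓝 0) :=
        Real.tendsto_exp_neg_atTop_nhds_zero.comp (tendsto_npow ha0)
      have h2 := ENNReal.tendsto_ofReal h1
      rw [ENNReal.ofReal_zero] at h2
      refine tendsto_of_tendsto_of_tendsto_of_le_of_le' tendsto_const_nhds h2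
        (Eventually.of_forall (fun n => bot_le)) ?_
      filter_upwards [hx] with n hn
      exact ENNReal.ofReal_le_ofReal (hn n le_rfl)
    rw [lintegral_congr_ae hz] at ha1
    simp at ha1

end TH967.DP
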